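import Pool.Agent.Helper17.QP.A

/-!
# QP, blocks B4a and B4m: the local inequalities for a quotient of dimension four
-/

set_option autoImplicit false

namespace Pool.Agent.QP

open Module

section gen

variable {K : Type*} [Field K] {Q : Type*} [AddCommGroup Q] [Module K Q]

theorem Ind.mono {s : Q → ℝ} {r r' : ℝ} (h : Ind K s r) (hr : r' ≤ r) : Ind K s r' := by
  obtain ⟨n, w, h1, h2⟩ := h
  exact ⟨n, w, h1, hr.trans h2⟩

/-- a vector with a nonzero coefficient in a relation can be dropped -/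
theorem drop_one {n : ℕ} (v : Fin (n + 1) → Q) (c : Fin (n + 1) → K) (hc : ∑ i, c i • v i = 0) (k : Fin (n + 1)) (hk : c k ≠ 0)
    (hr : n ≤ finrank K (Submodule.span K (Set.range v))) : LinearIndependent K (v ∘ k.succAbove) := by
  have hfd : Module.Finite K (Submodule.span K (Set.range (v ∘ k.succAbove))) :=
    FiniteDimensional.span_of_finite K (Set.finite_range _)
  have h1 : v k ∈ Submodule.span K (Set.range (v ∘ k.succAbove)) := by
    rw [Fin.sum_univ_succAbove _ k] at hc
    have h2 : v k = -((c k)⁻¹ • ∑ j, c (k.succAbove j) • v (k.succAbove j)) := by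
      rw [eq_neg_iff_add_eq_zero]
      have h3 := congrArg (fun x => (c k)⁻¹ • x) hc
      simp only [smul_add, smul_smul, smul_zero, inv_mul_cancel₀ hk, one_smul] at h3
      exact h3
    rw [h2]
    refine Submodule.neg_mem _ (Submodule.smul_mem _ _ (Submodule.sum_mem _ fun j _ => Submodule.smul_mem _ _ ?_))
    exact Submodule.subset_span ⟨j, rfl⟩
  have h2 : Submodule.span K (Set.range v) ≤ Submodule.span K (Set.range (v ∘ k.succAbove)) := by
    rw [Submodule.span_le]
    rintro _ ⟨i, rfl⟩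
    rcases Fin.eq_self_or_eq_succAbove k i with h | ⟨j, h⟩
    · rw [h]
      exact h1
    · rw [h]
      exact Submodule.subset_span ⟨j, rfl⟩
  rw [linearIndependent_iff_card_le_finrank_span, Fintype.card_fin]
  exact hr.trans (Submodule.finrank_mono h2)

/-- drop the smallest vector of a relation -/
theorem ind_of_dep {n : ℕ} (v : Fin (n + 1) → Q) (s : Q → ℝ) (hs : ∀ i, 0 ≤ s (v i))
    (hr : n ≤ finrank K (Submodule.span K (Set.range v))) (h0 : ∀ i, v i ≠ 0)
    (h2 : ∀ i j, i ≠ j → ∀ c : K, v i ≠ c • v j) : Ind K s (2 / 3 * ∑ i, s (v i)) := by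
  classical
  have hT : 0 ≤ ∑ i, s (v i) := Finset.sum_nonneg fun i _ => hs i
  by_cases hv : LinearIndependent K v
  · exact ⟨n + 1, v, hv, by linarith⟩
  obtain ⟨c, hc, i0, hi0⟩ := Fintype.not_linearIndependent_iff.1 hv
  -- the smallest element of the support
  obtain ⟨k, hk, hmin⟩ := Finset.exists_min_image (Finset.univ.filter fun i => c i ≠ 0) (fun i => s (v i))
    ⟨i0, by simp [hi0]⟩
  rw [Finset.mem_filter] at hk
  have hmin' : ∀ i, c i ≠ 0 → s (v k) ≤ s (v i) := fun i hi => hmin i (by simp [hi])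
  -- a second one
  obtain ⟨j, hjk, hj⟩ : ∃ j, j ≠ k ∧ c j ≠ 0 := by
    by_contra hcon
    push Not at hcon
    rw [Fintype.sum_eq_single k (fun j hj => by rw [hcon j hj, zero_smul])] at hc
    exact h0 k ((smul_eq_zero.1 hc).resolve_left hk.2)
  obtain ⟨m, hmk, hmj, hm⟩ : ∃ m, m ≠ k ∧ m ≠ j ∧ c m ≠ 0 := by
    by_contra hcon
    push Not at hcon
    rw [Fintype.sum_eq_add k j hjk.symm (fun m hm => by rw [hcon m hm.1 hm.2, zero_smul])] at hc
    apply h2 k j hjk.symm (-((c k)⁻¹ * c j))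
    have h3 := congrArg (fun x => (c k)⁻¹ • x) hc
    simp only [smul_add, smul_smul, smul_zero, inv_mul_cancel₀ hk.2, one_smul] at h3
    rw [neg_smul, ← add_eq_zero_iff_eq_neg]
    exact h3
  refine ⟨n, v ∘ k.succAbove, drop_one v c hc k hk.2 hr, ?_⟩
  have h4 : ∑ i, s (v i) = s (v k) + ∑ i, s ((v ∘ k.succAbove) i) := Fin.sum_univ_succAbove _ k
  have h5 : s (v k) + s (v j) + s (v m) ≤ ∑ i, s (v i) := by
    have h6 : ∑ i ∈ {k, j, m}, s (v i) ≤ ∑ i, s (v i) :=
      Finset.sum_le_sum_of_subset_of_nonneg (Finset.subset_univ _) fun i _ _ => hs i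
    rw [Finset.sum_insert (by simp [hjk.symm, hmk.symm]), Finset.sum_insert (by simp [hmj.symm]), Finset.sum_singleton] at h6
    linarith
  have h7 := hmin' j hj
  have h8 := hmin' m hm
  linarith

theorem ind_pair (x y : Q) (h0 : x ≠ 0) (h : ∀ c : K, y ≠ c • x) : LinearIndependent K ![x, y] := by
  rw [LinearIndependent.pair_iff]
  intro a b hab
  have hb : b = 0 := by
    by_contra hb
    apply h (-(b⁻¹ * a))
    have h3 := congrArg (fun x => b⁻¹ • x) hab
    simp only [smul_add, smul_smul, smul_zero, inv_mul_cancel₀ hb, one_smul] at h3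
    rw [neg_smul, ← add_eq_zero_iff_eq_neg, add_comm]
    exact h3
  rw [hb, zero_smul, add_zero] at hab
  exact ⟨(smul_eq_zero.1 hab).resolve_right h0, hb⟩

theorem two_le {n : ℕ} (v : Fin n → Q) (x y : Q) (hx : x ∈ Set.range v) (hy : y ∈ Set.range v) (h0 : x ≠ 0)
    (h : ∀ c : K, y ≠ c • x) : 2 ≤ finrank K (Submodule.span K (Set.range v)) := by
  have hfd : Module.Finite K (Submodule.span K (Set.range v)) := FiniteDimensional.span_of_finite K (Set.finite_range _)
  have h5 := finrank_span_eq_card (ind_pair x y h0 h)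
  rw [Fintype.card_fin] at h5
  refine h5.symm.le.trans (Submodule.finrank_mono (Submodule.span_mono ?_))
  rintro _ ⟨a, rfl⟩
  fin_cases a
  · exact hx
  · exact hy

/-- two vectors and a third one which is not in the span of the whole family -/
theorem ind_three {n : ℕ} (v : Fin n → Q) (x : Q) (hx : x ∉ Submodule.span K (Set.range v)) (i j : Fin n)
    (h0 : v i ≠ 0) (h : ∀ c : K, v j ≠ c • v i) : LinearIndependent K ![x, v i, v j] := by
  have h1 : LinearIndependent K ![v i, v j] := ind_pair _ _ h0 h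
  have h2 : LinearIndependent K (Fin.cons x ![v i, v j] : Fin 3 → Q) := by
    rw [linearIndependent_finCons]
    refine ⟨h1, fun hx' => hx ?_⟩
    refine Submodule.span_mono ?_ hx'
    rintro _ ⟨a, rfl⟩
    fin_cases a
    · exact ⟨i, rfl⟩
    · exact ⟨j, rfl⟩
  exact h2

theorem sum_four {q : ℕ} (f : Fin q → ℝ) (i j i' j' : Fin q) (hd : [i, j, i', j'].Nodup)
    (h : ∀ k, k ≠ i → k ≠ j → k ≠ i' → k ≠ j' → f k = 0) : ∑ k, f k = f i + f j + f i' + f j' := by
  classical
  simp only [List.nodup_cons, List.mem_cons, List.not_mem_nil, or_false, not_or, List.nodup_nil, and_true,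
    not_false_eq_true] at hd
  obtain ⟨⟨h1, h2, h3⟩, ⟨h4, h5⟩, h6⟩ := hd
  have h7 : ∑ k ∈ {i, j, i', j'}, f k = ∑ k, f k := Finset.sum_subset (Finset.subset_univ _) fun k _ hk => by
    simp only [Finset.mem_insert, Finset.mem_singleton, not_or] at hk
    exact h k hk.1 hk.2.1 hk.2.2.1 hk.2.2.2
  rw [← h7, Finset.sum_insert (by simp [h1, h2, h3]), Finset.sum_insert (by simp [h4, h5]), Finset.sum_insert (by simp [h6]),
    Finset.sum_singleton]
  ring

theorem sum_three {q : ℕ} (f : Fin q → ℝ) (i j k : Fin q) (hd : [i, j, k].Nodup)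
    (h : ∀ k', k' ≠ i → k' ≠ j → k' ≠ k → f k' = 0) : ∑ k, f k = f i + f j + f k := by
  classical
  simp only [List.nodup_cons, List.mem_cons, List.not_mem_nil, or_false, not_or, List.nodup_nil, and_true,
    not_false_eq_true] at hd
  obtain ⟨⟨h1, h2⟩, h4⟩ := hd
  have h7 : ∑ k' ∈ {i, j, k}, f k' = ∑ k, f k := Finset.sum_subset (Finset.subset_univ _) fun k' _ hk => by
    simp only [Finset.mem_insert, Finset.mem_singleton, not_or] at hk
    exact h k' hk.1 hk.2.1 hk.2.2
  rw [← h7, Finset.sum_insert (by simp [h1, h2]), Finset.sum_insert (by simp [h4]), Finset.sum_singleton]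
  ring

theorem sum_two {q : ℕ} (f : Fin q → ℝ) (i j : Fin q) (hij : i ≠ j) (h : ∀ k, k ≠ i → k ≠ j → f k = 0) :
    ∑ k, f k = f i + f j :=
  Fintype.sum_eq_add i j hij fun k hk => h k hk.1 hk.2

end gen

variable {K : Type*} [Field K] [CharZero K] {q : ℕ} (l : Fin q → Fin 3 → K)
variable {Q : Type*} [AddCommGroup Q] [Module K Q] (Φ : (Fin 6 → K) →ₗ[K] Q)

theorem Plc.nn {s : Q → ℝ} {a b : Fin q → ℝ} (hp : Plc Φ l s a b) (i : Fin q) : 0 ≤ s (E Φ l i) := by
  rw [hp.sq]
  exact add_nonneg (hp.a0 i) (hp.b0 i)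

/-- the data of the type with four lines -/
theorem type4 (hΦ : Function.Surjective Φ) (hl : GP l) (hd : finrank K Q = 4) (i j i' j' : Fin q)
    (hn : [i, j, i', j'].Nodup) (s : Q → ℝ) (a b : Fin q → ℝ) (hp : Plc Φ l s a b)
    (ha : ∀ k, k ≠ i → k ≠ j → a k = 0) (hb : ∀ k, k ≠ i' → k ≠ j' → b k = 0) (haa : a i ≤ a j) (hbb : b i' ≤ b j') :
    ∃ m : Fin 3 → K, 2 ≤ finrank K (Submodule.span K (Set.range ![E Φ l i, E Φ l j, E Φ l i', E Φ l j'])) ∧
      (finrank K (Submodule.span K (Set.range ![E Φ l i, E Φ l j, E Φ l i', E Φ l j'])) ≤ 2 →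
        Φ (sy m m) ∉ Submodule.span K (Set.range ![E Φ l i, E Φ l j, E Φ l i', E Φ l j']) ∧
        s (E Φ l i) + s (E Φ l i') ≤ s (Φ (sy m m))) ∧
      Tot Φ l s = s (E Φ l i) + s (E Φ l j) + s (E Φ l i') + s (E Φ l j') ∧
      s (E Φ l i) ≤ s (E Φ l j) ∧ s (E Φ l i') ≤ s (E Φ l j') := by
  have hn' := hn
  simp only [List.nodup_cons, List.mem_cons, List.not_mem_nil, or_false, not_or, List.nodup_nil, and_true,
    not_false_eq_true] at hn
  obtain ⟨⟨h1, h2, h3⟩, ⟨h4, h5⟩, h6⟩ := hn
  obtain ⟨m, hm, hm1, hm2⟩ := exists_m l hl i j i' j' h1 h2 h3 h4 h5 h6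
  have hind := indep4m l hl i j i' j' h1 h2 h3 h4 h5 h6 m hm hm1 hm2
  have hr5 := rel_rank Φ hΦ _ hind
  have hind4 : LinearIndependent K ![sy (l i) (l i), sy (l j) (l j), sy (l i') (l i'), sy (l j') (l j')] := by
    have h7 := hind.comp (Fin.castSucc : Fin 4 → Fin 5) (Fin.castSucc_injective 4)
    convert h7 using 1
    funext a
    fin_cases a <;> rfl
  have hr4 := rel_rank Φ hΦ _ hind4
  have e4 : Φ ∘ ![sy (l i) (l i), sy (l j) (l j), sy (l i') (l i'), sy (l j') (l j')] =
      ![E Φ l i, E Φ l j, E Φ l i', E Φ l j'] := by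
    funext a
    fin_cases a <;> rfl
  rw [e4, hd] at hr4
  set V := Submodule.span K (Set.range ![E Φ l i, E Φ l j, E Φ l i', E Φ l j']) with hV
  have hfd : Module.Finite K V := FiniteDimensional.span_of_finite K (Set.finite_range _)
  have si : s (E Φ l i) = a i := by rw [hp.sq, hb i h2 h3, add_zero]
  have sj : s (E Φ l j) = a j := by rw [hp.sq, hb j h4 h5, add_zero]
  have si' : s (E Φ l i') = b i' := by rw [hp.sq, ha i' (Ne.symm h2) (Ne.symm h4), zero_add]
  have sj' : s (E Φ l j') = b j' := by rw [hp.sq, ha j' (Ne.symm h3) (Ne.symm h5), zero_add]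
  refine ⟨m, by omega, fun hle => ?_, ?_, by rw [si, sj]; exact haa, by rw [si', sj']; exact hbb⟩
  · have hnot : Φ (sy m m) ∉ V := by
      intro hmem
      have h8 : Submodule.span K (Set.range (Φ ∘ ![sy (l i) (l i), sy (l j) (l j), sy (l i') (l i'), sy (l j') (l j'), sy m m])) ≤ V := by
        rw [Submodule.span_le]
        rintro _ ⟨a, rfl⟩
        fin_cases a
        · exact Submodule.subset_span ⟨0, rfl⟩
        · exact Submodule.subset_span ⟨1, rfl⟩
        · exact Submodule.subset_span ⟨2, rfl⟩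
        · exact Submodule.subset_span ⟨3, rfl⟩
        · exact hmem
      have h9 := Submodule.finrank_mono h8
      omega
    refine ⟨hnot, ?_⟩
    have hne : Φ (sy m m) ≠ 0 := fun h0 => hnot (by rw [h0]; exact V.zero_mem)
    have h10 := hp.nod m i j i' j' hm1 hm2 hne
    rw [min_eq_left haa, min_eq_left hbb] at h10
    rw [si, si']
    exact h10
  · unfold Tot
    refine sum_four (fun k => s (E Φ l k)) i j i' j' hn' fun k k1 k2 k3 k4 => ?_
    show s (E Φ l k) = 0
    rw [hp.sq, ha k k1 k2, hb k k3 k4, add_zero]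

theorem loc4a (hΦ : Function.Surjective Φ) (hl : GP l) (hq : 4 ≤ q) (hE : ∀ i, E Φ l i ≠ 0) (hd : finrank K Q = 4)
    (h : ∀ i j, i ≠ j → ¬ Rel Φ l i j) (s : Q → ℝ) (a b : Fin q → ℝ) (hp : Plc Φ l s a b) :
    Ind K s (2 / 3 * Tot Φ l s) := by
  have hrel : ∀ i j : Fin q, i ≠ j → ∀ c : K, E Φ l i ≠ c • E Φ l j := fun i j hij c hc => h i j hij ⟨c, hc⟩
  have hT0 : 0 ≤ Tot Φ l s := Finset.sum_nonneg fun i _ => hp.nn l Φ i
  rcases types l Φ s a b hp hq with ⟨i, j, i', j', hn, ha, hb, haa, hbb⟩ | ⟨i, j, k, hn, ha, hb⟩ | ⟨i, j, hij, ha, hb⟩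
  · obtain ⟨m, hr2, hm, hT, hs1, hs2⟩ := type4 l Φ hΦ hl hd i j i' j' hn s a b hp ha hb haa hbb
    simp only [List.nodup_cons, List.mem_cons, List.not_mem_nil, or_false, not_or, List.nodup_nil, and_true,
      not_false_eq_true] at hn
    obtain ⟨⟨h1, h2, h3⟩, ⟨h4, h5⟩, h6⟩ := hn
    rcases le_or_gt (finrank K (Submodule.span K (Set.range ![E Φ l i, E Φ l j, E Φ l i', E Φ l j']))) 2 with hle | hgt
    · obtain ⟨hm1, hm2⟩ := hm hle
      have h7 := ind_three ![E Φ l i, E Φ l j, E Φ l i', E Φ l j'] (Φ (sy m m)) hm1 1 3 (hE j)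
        (fun c => hrel j' j (Ne.symm h5) c)
      refine ⟨3, _, h7, ?_⟩
      rw [Fin.sum_univ_three]
      show 2 / 3 * Tot Φ l s ≤ s (Φ (sy m m)) + s (E Φ l j) + s (E Φ l j')
      rw [hT] at hT0 ⊢
      linarith
    · have h7 := ind_of_dep (K := K) ![E Φ l i, E Φ l j, E Φ l i', E Φ l j'] s (fun a => by
          fin_cases a <;> exact hp.nn l Φ _) hgt (fun a => by fin_cases a <;> exact hE _) (by
          intro a b hab c
          fin_cases a <;> fin_cases b <;> first | exact absurd rfl hab | exact hrel _ _ (by assumption) c |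
            exact hrel _ _ (Ne.symm (by assumption)) c)
      refine h7.mono (le_of_eq ?_)
      rw [Fin.sum_univ_four, hT]
      rfl
  · have hn' := hn
    simp only [List.nodup_cons, List.mem_cons, List.not_mem_nil, or_false, not_or, List.nodup_nil, and_true,
      not_false_eq_true] at hn
    obtain ⟨⟨h1, h2⟩, h3⟩ := hn
    have hT : Tot Φ l s = s (E Φ l i) + s (E Φ l j) + s (E Φ l k) := by
      refine sum_three (fun k => s (E Φ l k)) i j k hn' fun k' k1 k2 k3 => ?_
      show s (E Φ l k') = 0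
      rw [hp.sq, ha k' k1 k2, hb k' k1 k3, add_zero]
    have hr : 2 ≤ finrank K (Submodule.span K (Set.range ![E Φ l i, E Φ l j, E Φ l k])) :=
      two_le _ (E Φ l i) (E Φ l j) ⟨0, rfl⟩ ⟨1, rfl⟩ (hE i) (hrel j i (Ne.symm h1))
    have h7 := ind_of_dep (K := K) ![E Φ l i, E Φ l j, E Φ l k] s (fun a => by
        fin_cases a <;> exact hp.nn l Φ _) hr (fun a => by fin_cases a <;> exact hE _) (by
        intro a b hab c
        fin_cases a <;> fin_cases b <;> first | exact absurd rfl hab | exact hrel _ _ (by assumption) c |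
          exact hrel _ _ (Ne.symm (by assumption)) c)
    refine h7.mono (le_of_eq ?_)
    rw [Fin.sum_univ_three, hT]
    rfl
  · have hT : Tot Φ l s = s (E Φ l i) + s (E Φ l j) := by
      refine sum_two (fun k => s (E Φ l k)) i j hij fun k k1 k2 => ?_
      show s (E Φ l k) = 0
      rw [hp.sq, ha k k1 k2, hb k k1 k2, add_zero]
    have h4 : LinearIndependent K ![E Φ l i, E Φ l j] := ind_pair _ _ (hE i) (hrel j i (Ne.symm hij))
    refine ⟨2, _, h4, ?_⟩
    rw [Fin.sum_univ_two]
    show 2 / 3 * Tot Φ l s ≤ s (E Φ l i) + s (E Φ l j)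
    rw [hT] at hT0 ⊢
    linarith

theorem loc4m (hΦ : Function.Surjective Φ) (hl : GP l) (hq : 4 ≤ q) (hE : ∀ i, E Φ l i ≠ 0) (hd : finrank K Q = 4)
    (s : Q → ℝ) (a b : Fin q → ℝ) (hp : Plc Φ l s a b) : ∃ i, Ind K s (Tot Φ l s - s (E Φ l i)) := by
  have nn := hp.nn l Φ
  rcases types l Φ s a b hp hq with ⟨i, j, i', j', hn, ha, hb, haa, hbb⟩ | ⟨i, j, k, hn, ha, hb⟩ | ⟨i, j, hij, ha, hb⟩
  · obtain ⟨m, hr2, hm, hT, hs1, hs2⟩ := type4 l Φ hΦ hl hd i j i' j' hn s a b hp ha hb haa hbb
    have n1 := nn i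
    have n2 := nn j
    have n3 := nn i'
    have n4 := nn j'
    rcases le_or_gt (finrank K (Submodule.span K (Set.range ![E Φ l i, E Φ l j, E Φ l i', E Φ l j']))) 2 with hle | hgt
    · obtain ⟨hm1, hm2⟩ := hm hle
      refine ⟨j', ?_⟩
      by_cases hjj : ∀ c : K, E Φ l j' ≠ c • E Φ l j
      · have h7 := ind_three ![E Φ l i, E Φ l j, E Φ l i', E Φ l j'] (Φ (sy m m)) hm1 1 3 (hE j) hjj
        refine ⟨3, _, h7, ?_⟩
        rw [Fin.sum_univ_three]
        show Tot Φ l s - s (E Φ l j') ≤ s (Φ (sy m m)) + s (E Φ l j) + s (E Φ l j')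
        rw [hT]
        linarith
      · push Not at hjj
        obtain ⟨c', hc'⟩ := hjj
        by_cases hji : ∀ c : K, E Φ l i ≠ c • E Φ l j
        · have h7 := ind_three ![E Φ l i, E Φ l j, E Φ l i', E Φ l j'] (Φ (sy m m)) hm1 1 0 (hE j) hji
          refine ⟨3, _, h7, ?_⟩
          rw [Fin.sum_univ_three]
          show Tot Φ l s - s (E Φ l j') ≤ s (Φ (sy m m)) + s (E Φ l j) + s (E Φ l i)
          rw [hT]
          linarith
        · push Not at hji
          obtain ⟨c, hc⟩ := hji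
          have hji' : ∀ c : K, E Φ l i' ≠ c • E Φ l j := by
            intro c'' hc''
            have h8 : Submodule.span K (Set.range ![E Φ l i, E Φ l j, E Φ l i', E Φ l j']) ≤ Submodule.span K {E Φ l j} := by
              rw [Submodule.span_le]
              rintro _ ⟨a, rfl⟩
              fin_cases a
              · exact Submodule.mem_span_singleton.2 ⟨c, hc.symm⟩
              · exact Submodule.mem_span_singleton_self _
              · exact Submodule.mem_span_singleton.2 ⟨c'', hc''.symm⟩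
              · exact Submodule.mem_span_singleton.2 ⟨c', hc'.symm⟩
            have h9 := Submodule.finrank_mono h8
            rw [finrank_span_singleton (hE j)] at h9
            omega
          have h7 := ind_three ![E Φ l i, E Φ l j, E Φ l i', E Φ l j'] (Φ (sy m m)) hm1 1 2 (hE j) hji'
          refine ⟨3, _, h7, ?_⟩
          rw [Fin.sum_univ_three]
          show Tot Φ l s - s (E Φ l j') ≤ s (Φ (sy m m)) + s (E Φ l j) + s (E Φ l i')
          rw [hT]
          linarith
    · by_cases hv : LinearIndependent K ![E Φ l i, E Φ l j, E Φ l i', E Φ l j']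
      · refine ⟨i, 4, _, hv, ?_⟩
        rw [Fin.sum_univ_four, hT]
        show s (E Φ l i) + s (E Φ l j) + s (E Φ l i') + s (E Φ l j') - s (E Φ l i) ≤
          s (E Φ l i) + s (E Φ l j) + s (E Φ l i') + s (E Φ l j')
        linarith
      · obtain ⟨c, hc, k, hk⟩ := Fintype.not_linearIndependent_iff.1 hv
        have h7 := drop_one (n := 3) ![E Φ l i, E Φ l j, E Φ l i', E Φ l j'] c hc k hk hgt
        have h8 : ∑ a, s (![E Φ l i, E Φ l j, E Φ l i', E Φ l j'] a) = s (![E Φ l i, E Φ l j, E Φ l i', E Φ l j'] k) +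
            ∑ a, s ((![E Φ l i, E Φ l j, E Φ l i', E Φ l j'] ∘ k.succAbove) a) := Fin.sum_univ_succAbove _ k
        have h9 : ∑ a, s (![E Φ l i, E Φ l j, E Φ l i', E Φ l j'] a) = Tot Φ l s := by
          rw [Fin.sum_univ_four, hT]
          rfl
        have h10 : ∃ x : Fin q, ![E Φ l i, E Φ l j, E Φ l i', E Φ l j'] k = E Φ l x := by
          fin_cases k
          · exact ⟨i, rfl⟩
          · exact ⟨j, rfl⟩
          · exact ⟨i', rfl⟩
          · exact ⟨j', rfl⟩
        obtain ⟨x, hx⟩ := h10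
        refine ⟨x, 3, _, h7, ?_⟩
        rw [← hx]
        linarith
  · have hn' := hn
    simp only [List.nodup_cons, List.mem_cons, List.not_mem_nil, or_false, not_or, List.nodup_nil, and_true,
      not_false_eq_true] at hn
    obtain ⟨⟨h1, h2⟩, h3⟩ := hn
    have n1 := nn i
    have n2 := nn j
    have n3 := nn k
    have hT : Tot Φ l s = s (E Φ l i) + s (E Φ l j) + s (E Φ l k) := by
      refine sum_three (fun k => s (E Φ l k)) i j k hn' fun k' k1 k2 k3 => ?_
      show s (E Φ l k') = 0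
      rw [hp.sq, ha k' k1 k2, hb k' k1 k3, add_zero]
    by_cases hv : LinearIndependent K ![E Φ l i, E Φ l j, E Φ l k]
    · refine ⟨i, 3, _, hv, ?_⟩
      rw [Fin.sum_univ_three, hT]
      show s (E Φ l i) + s (E Φ l j) + s (E Φ l k) - s (E Φ l i) ≤ s (E Φ l i) + s (E Φ l j) + s (E Φ l k)
      linarith
    rcases le_or_gt 2 (finrank K (Submodule.span K (Set.range ![E Φ l i, E Φ l j, E Φ l k]))) with hge | hlt
    · obtain ⟨c, hc, k0, hk⟩ := Fintype.not_linearIndependent_iff.1 hv
      have h7 := drop_one (n := 2) ![E Φ l i, E Φ l j, E Φ l k] c hc k0 hk hge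
      have h8 : ∑ a, s (![E Φ l i, E Φ l j, E Φ l k] a) = s (![E Φ l i, E Φ l j, E Φ l k] k0) +
          ∑ a, s ((![E Φ l i, E Φ l j, E Φ l k] ∘ k0.succAbove) a) := Fin.sum_univ_succAbove _ k0
      have h9 : ∑ a, s (![E Φ l i, E Φ l j, E Φ l k] a) = Tot Φ l s := by
        rw [Fin.sum_univ_three, hT]
        rfl
      have h10 : ∃ x : Fin q, ![E Φ l i, E Φ l j, E Φ l k] k0 = E Φ l x := by
        fin_cases k0
        · exact ⟨i, rfl⟩
        · exact ⟨j, rfl⟩
        · exact ⟨k, rfl⟩
      obtain ⟨x, hx⟩ := h10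
      refine ⟨x, 2, _, h7, ?_⟩
      rw [← hx]
      linarith
    · -- all proportional
      obtain ⟨c, hc⟩ : ∃ c : K, E Φ l j = c • E Φ l i := by
        by_contra hcon
        push Not at hcon
        have := two_le (K := K) ![E Φ l i, E Φ l j, E Φ l k] (E Φ l i) (E Φ l j) ⟨0, rfl⟩ ⟨1, rfl⟩ (hE i) hcon
        omega
      obtain ⟨c', hc'⟩ : ∃ c : K, E Φ l k = c • E Φ l i := by
        by_contra hcon
        push Not at hcon
        have := two_le (K := K) ![E Φ l i, E Φ l j, E Φ l k] (E Φ l i) (E Φ l k) ⟨0, rfl⟩ ⟨2, rfl⟩ (hE i) hcon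
        omega
      have hcne : c ≠ 0 := by
        rintro rfl
        rw [zero_smul] at hc
        exact hE j hc
      have hcne' : c' ≠ 0 := by
        rintro rfl
        rw [zero_smul] at hc'
        exact hE k hc'
      have s1 : s (E Φ l j) = s (E Φ l i) := by rw [hc, hp.smul c _ hcne (hE i)]
      have s2 : s (E Φ l k) = s (E Φ l i) := by rw [hc', hp.smul c' _ hcne' (hE i)]
      have hr := rel_rank Φ hΦ _ (indep3n l hl i j k h1 h2 h3)
      have hle : Submodule.span K (Set.range (Φ ∘ ![sy (l i) (l i), sy (l j) (l j), sy (l k) (l k), sy (l i) (l j),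
          sy (l i) (l k)])) ≤ Submodule.span K (Set.range ![E Φ l i, B Φ l i j, B Φ l i k]) := by
        rw [Submodule.span_le]
        have hEi : E Φ l i ∈ Submodule.span K (Set.range ![E Φ l i, B Φ l i j, B Φ l i k]) :=
          Submodule.subset_span ⟨0, rfl⟩
        rintro _ ⟨a, rfl⟩
        fin_cases a
        · exact hEi
        · show E Φ l j ∈ _
          rw [hc]
          exact Submodule.smul_mem _ _ hEi
        · show E Φ l k ∈ _
          rw [hc']
          exact Submodule.smul_mem _ _ hEi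
        · exact Submodule.subset_span ⟨1, rfl⟩
        · exact Submodule.subset_span ⟨2, rfl⟩
      have hfd : Module.Finite K (Submodule.span K (Set.range ![E Φ l i, B Φ l i j, B Φ l i k])) :=
        FiniteDimensional.span_of_finite K (Set.finite_range _)
      have hmono := Submodule.finrank_mono hle
      have hw : LinearIndependent K ![E Φ l i, B Φ l i j, B Φ l i k] := by
        rw [linearIndependent_iff_card_le_finrank_span, Fintype.card_fin]
        show 3 ≤ finrank K (Submodule.span K (Set.range ![E Φ l i, B Φ l i j, B Φ l i k]))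
        omega
      have hB1 : B Φ l i j ≠ 0 := hw.ne_zero 1
      have hB2 : B Φ l i k ≠ 0 := hw.ne_zero 2
      have m1 := hp.mul i j h1 hB1
      have m2 := hp.mul i k h2 hB2
      have q1 := hp.sq i
      have q2 := hp.sq j
      have q3 := hp.sq k
      have bj : b j = 0 := hb j (Ne.symm h1) h3
      have ak : a k = 0 := ha k (Ne.symm h2) (Ne.symm h3)
      have a0 := hp.a0 i
      have b0 := hp.b0 i
      rw [bj] at m1 q2
      rw [ak] at m2 q3
      rw [min_eq_left (by linarith)] at m1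
      rw [min_eq_right (by linarith)] at m2
      refine ⟨k, 3, _, hw, ?_⟩
      rw [Fin.sum_univ_three, hT]
      show s (E Φ l i) + s (E Φ l j) + s (E Φ l k) - s (E Φ l k) ≤ s (E Φ l i) + s (B Φ l i j) + s (B Φ l i k)
      linarith
  · have hT : Tot Φ l s = s (E Φ l i) + s (E Φ l j) := by
      refine sum_two (fun k => s (E Φ l k)) i j hij fun k k1 k2 => ?_
      show s (E Φ l k) = 0
      rw [hp.sq, ha k k1 k2, hb k k1 k2, add_zero]
    refine ⟨j, 1, ![E Φ l i], ?_, ?_⟩
    · rw [linearIndependent_unique_iff]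
      exact hE i
    · rw [hT, Fin.sum_univ_one]
      show s (E Φ l i) + s (E Φ l j) - s (E Φ l j) ≤ s (E Φ l i)
      linarith

end Pool.Agent.QP
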