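import Mathlib

/-!
# QP, block EF, part 1: growth of the powers of a finite dimensional subspace of a field, and bases adapted to the powers of an element
-/

set_option autoImplicit false

namespace Pool.Agent.QP.EF

open Module Filter

section growth

/-- If `H` grows at most like the power `d`, then often `m H(m) ≤ (d + 1 + ε) ∑_{i < m} H(i)`. -/
theorem growth (H : ℕ → ℝ) (d : ℕ) (C : ℝ) (h1 : ∀ m, 1 ≤ H m) (h2 : ∀ m, H m ≤ C * ((m : ℝ) + 1) ^ d) (ε : ℝ) (hε : 0 < ε)
    (N : ℕ) : ∃ m : ℕ, N ≤ m ∧ 0 < m ∧ m * H m ≤ (d + 1 + ε) * ∑ i ∈ Finset.range m, H i := by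
  classical
  by_contra hcon
  push Not at hcon
  set T : ℕ → ℝ := fun m => ∑ i ∈ Finset.range m, H i with hT
  set A : ℕ → ℝ := fun m => (m.ascFactorial (d + 1) : ℝ) with hA
  set N' := max N 1 with hN'
  have hN1 : 1 ≤ N' := le_max_right _ _
  have hApos : ∀ m, 1 ≤ m → 0 < A m := by
    intro m hm
    have h3 : m ^ (d + 1) ≤ m.ascFactorial (d + 1) := Nat.pow_succ_le_ascFactorial m (d + 1)
    have h4 : 0 < m ^ (d + 1) := pow_pos hm _
    show (0 : ℝ) < (m.ascFactorial (d + 1) : ℝ)
    exact_mod_cast lt_of_lt_of_le h4 h3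
  have hAs : ∀ m : ℕ, (m : ℝ) * A (m + 1) = (m + (d + 1)) * A m := by
    intro m
    have h3 := Nat.succ_ascFactorial m (d + 1)
    show (m : ℝ) * ((m + 1).ascFactorial (d + 1) : ℝ) = (m + (d + 1)) * (m.ascFactorial (d + 1) : ℝ)
    exact_mod_cast h3
  have hT0 : ∀ m, 1 ≤ m → 1 ≤ T m := by
    intro m hm
    have h3 : H 0 ≤ T m := Finset.single_le_sum (f := H) (fun i _ => le_trans zero_le_one (h1 i)) (Finset.mem_range.2 hm)
    exact (h1 0).trans h3
  set U : ℕ → ℝ := fun m => T m / A m with hU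
  -- the step
  have hstep : ∀ m, N' ≤ m → U m * (1 + ε / (m + (d + 1))) ≤ U (m + 1) := by
    intro m hm
    have hm1 : 1 ≤ m := hN1.trans hm
    have hmR : (0 : ℝ) < m := by exact_mod_cast hm1
    have h3 := hcon m ((le_max_left _ _).trans hm) hm1
    have h4 : T (m + 1) = T m + H m := Finset.sum_range_succ _ _
    have hd : (0 : ℝ) < m + (d + 1) := by positivity
    have h5 : A (m + 1) = (m + (d + 1)) * A m / m := by
      rw [eq_div_iff hmR.ne', mul_comm]
      exact hAs m
    have h6 : (m + (d + 1) + ε) * T m ≤ m * T (m + 1) := by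
      rw [h4]
      have h7 : (d + 1 + ε) * T m < m * H m := h3
      nlinarith
    show T m / A m * (1 + ε / (m + (d + 1))) ≤ T (m + 1) / A (m + 1)
    rw [h5]
    have hAm := hApos m hm1
    have e1 : T m / A m * (1 + ε / (m + (d + 1))) = ((m + (d + 1) + ε) * T m) / ((m + (d + 1)) * A m) := by
      field_simp
    have e2 : T (m + 1) / ((m + (d + 1)) * A m / m) = (m * T (m + 1)) / ((m + (d + 1)) * A m) := by
      field_simp
    rw [e1, e2]
    exact div_le_div_of_nonneg_right h6 (by positivity)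
  have hU0 : 0 < U N' := div_pos (lt_of_lt_of_le one_pos (hT0 _ hN1)) (hApos _ hN1)
  have hmono : ∀ j, U N' ≤ U (N' + j) := by
    intro j
    induction j with
    | zero => exact le_rfl
    | succ j ih =>
      refine ih.trans ?_
      have h3 := hstep (N' + j) (Nat.le_add_right _ _)
      refine le_trans ?_ h3
      have h4 : 0 < U (N' + j) := lt_of_lt_of_le hU0 ih
      have h5 : (0 : ℝ) ≤ ε / (((N' + j : ℕ) : ℝ) + (d + 1)) := by positivity
      nlinarith
  have hlow : ∀ j, U N' * (1 + ε * ∑ i ∈ Finset.range j, 1 / (((N' + i : ℕ) : ℝ) + (d + 1))) ≤ U (N' + j) := by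
    intro j
    induction j with
    | zero => simp
    | succ j ih =>
      rw [Finset.sum_range_succ]
      have h3 := hstep (N' + j) (Nat.le_add_right _ _)
      refine le_trans ?_ h3
      have h5 : (0 : ℝ) ≤ ε / (((N' + j : ℕ) : ℝ) + (d + 1)) := by positivity
      have h6 := mul_le_mul_of_nonneg_right (hmono j) h5
      have h7 : ε * (1 / (((N' + j : ℕ) : ℝ) + (d + 1))) = ε / (((N' + j : ℕ) : ℝ) + (d + 1)) := by ring
      have h8 : U N' * (1 + ε * (∑ i ∈ Finset.range j, 1 / (((N' + i : ℕ) : ℝ) + (d + 1)) + 1 / (((N' + j : ℕ) : ℝ) + (d + 1)))) =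
          U N' * (1 + ε * ∑ i ∈ Finset.range j, 1 / (((N' + i : ℕ) : ℝ) + (d + 1))) +
            U N' * (ε / (((N' + j : ℕ) : ℝ) + (d + 1))) := by
        rw [← h7]
        ring
      rw [h8]
      linarith
  -- upper bound
  have hC : 0 ≤ C := by
    have h3 := (h1 0).trans (h2 0)
    simp at h3
    linarith
  have hUp : ∀ m, 1 ≤ m → U m ≤ C := by
    intro m hm
    have hmR : (0 : ℝ) < m := by exact_mod_cast hm
    show T m / A m ≤ C
    rw [div_le_iff₀ (hApos m hm)]
    have h3 : T m ≤ ∑ i ∈ Finset.range m, C * (m : ℝ) ^ d := by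
      refine Finset.sum_le_sum fun i hi => (h2 i).trans ?_
      refine mul_le_mul_of_nonneg_left ?_ hC
      refine pow_le_pow_left₀ (by positivity) ?_ d
      have := Finset.mem_range.1 hi
      exact_mod_cast this
    rw [Finset.sum_const, Finset.card_range, nsmul_eq_mul] at h3
    have h4 : (m : ℝ) ^ (d + 1) ≤ A m := by
      show (m : ℝ) ^ (d + 1) ≤ (m.ascFactorial (d + 1) : ℝ)
      exact_mod_cast Nat.pow_succ_le_ascFactorial m (d + 1)
    have h5 : (m : ℝ) * (C * (m : ℝ) ^ d) = C * (m : ℝ) ^ (d + 1) := by ring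
    rw [h5] at h3
    exact h3.trans (mul_le_mul_of_nonneg_left h4 hC)
  -- divergence
  have hdiv := Real.tendsto_sum_range_one_div_nat_succ_atTop
  set K := N' + d with hK
  have hshift : Tendsto (fun j : ℕ => ∑ i ∈ Finset.range j, 1 / (((N' + i : ℕ) : ℝ) + (d + 1))) atTop atTop := by
    have h3 : ∀ j : ℕ, ∑ i ∈ Finset.range j, 1 / (((N' + i : ℕ) : ℝ) + (d + 1)) =
        ∑ i ∈ Finset.range (K + j), 1 / ((i : ℝ) + 1) - ∑ i ∈ Finset.range K, 1 / ((i : ℝ) + 1) := by
      intro j
      rw [Finset.sum_range_add, add_sub_cancel_left]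
      refine Finset.sum_congr rfl fun i _ => ?_
      congr 1
      rw [hK]
      push_cast
      ring
    simp_rw [h3, sub_eq_add_neg]
    refine tendsto_atTop_add_const_right _ _ ?_
    have h4 : Tendsto (fun j : ℕ => K + j) atTop atTop := tendsto_atTop_mono (fun j => Nat.le_add_left j K) tendsto_id
    exact hdiv.comp h4
  obtain ⟨j, hj⟩ := (hshift.eventually_gt_atTop (C / (U N' * ε))).exists
  have h3 := (hlow j).trans (hUp (N' + j) (hN1.trans (Nat.le_add_right _ _)))
  rw [div_lt_iff₀ (mul_pos hU0 hε)] at hj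
  nlinarith

end growth

section sys

variable {k R τ : Type*} [Field k] [Field R] [Algebra k R]

/-- sizes of the elements of the powers of `V` at the places of `P` -/
structure Sys (V : Submodule k R) (P : Finset τ) (s : τ → ℕ → R → ℝ) : Prop where
  nn : ∀ v ∈ P, ∀ m r, r ∈ V ^ m → r ≠ 0 → 0 ≤ s v m r
  mul : ∀ v ∈ P, ∀ m m' r r', r ∈ V ^ m → r' ∈ V ^ m' → r ≠ 0 → r' ≠ 0 → s v (m + m') (r * r') = s v m r + s v m' r'
  sch : ∀ m, 0 < m → ∀ (n : τ → ℕ) (w : ∀ v, Fin (n v) → R), (∀ v ∈ P, LinearIndependent k (w v)) →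
    (∀ v ∈ P, ∀ i, w v i ∈ V ^ m) → ∑ v ∈ P, ∑ i, s v m (w v i) ≤ m * finrank k (V ^ m : Submodule k R)

theorem finite_pow {V : Submodule k R} (hV : V.FG) (m : ℕ) : Module.Finite k (V ^ m : Submodule k R) :=
  Module.Finite.iff_fg.2 (hV.pow m)

/-- extension of an independent family of a subspace -/
theorem ext_fam (W : Submodule k R) [Module.Finite k W] {n : ℕ} (w : Fin n → R) (hw : LinearIndependent k w)
    (hW : ∀ i, w i ∈ W) (φ : R → ℝ) (hφ : ∀ r ∈ W, r ≠ 0 → 0 ≤ φ r) :
    ∃ w' : Fin (finrank k W) → R, LinearIndependent k w' ∧ (∀ i, w' i ∈ W) ∧ ∑ i, φ (w i) ≤ ∑ i, φ (w' i) := by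
  classical
  let u : Fin n → W := fun i => ⟨w i, hW i⟩
  have hu : LinearIndependent k u := LinearIndependent.of_comp W.subtype hw
  let T := hu.linearIndepOn_id.extend (Set.subset_univ (Set.range u))
  let b : Basis T k W := Basis.extend hu.linearIndepOn_id
  have hbx : ∀ x : T, b x = x := fun x => Basis.extend_apply_self _ x
  have hfin : Fintype T := FiniteDimensional.fintypeBasisIndex b
  have hcard : Fintype.card T = finrank k W := (finrank_eq_card_basis b).symm
  let e := Fintype.equivFinOfCardEq hcard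
  have hmem : ∀ i, u i ∈ T := fun i => Basis.subset_extend hu.linearIndepOn_id ⟨i, rfl⟩
  let g : Fin n → T := fun i => ⟨u i, hmem i⟩
  have hg : Function.Injective g := by
    intro i j hij
    exact hu.injective (congrArg Subtype.val hij)
  refine ⟨fun i => (b (e.symm i) : R), ?_, fun i => (b (e.symm i)).2, ?_⟩
  · have h1 := (b.linearIndependent.comp e.symm e.symm.injective).map' W.subtype (Submodule.ker_subtype W)
    exact h1
  · have h1 : ∑ i, φ (b (e.symm i) : R) = ∑ x, φ (b x : R) := e.symm.sum_comp fun x => φ (b x : R)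
    rw [h1]
    have h2 : ∑ i, φ (w i) = ∑ x ∈ Finset.univ.image g, φ (b x : R) := by
      rw [Finset.sum_image fun a _ b _ h => hg h]
      refine Finset.sum_congr rfl fun i _ => ?_
      rw [hbx]
    rw [h2]
    refine Finset.sum_le_sum_of_subset_of_nonneg (Finset.subset_univ _) fun x _ _ => hφ _ (b x).2 fun h => ?_
    exact b.ne_zero x (Subtype.ext h)

/-- a basis adapted to the powers of `c` -/
theorem adapted {V : Submodule k R} {P : Finset τ} {s : τ → ℕ → R → ℝ} (hS : Sys V P s) (hV : V.FG) {v : τ} (hv : v ∈ P)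
    (c : R) (hcV : c ∈ V) (hc : c ≠ 0) (m : ℕ) :
    ∃ w : Fin (finrank k (V ^ m : Submodule k R)) → R, LinearIndependent k w ∧ (∀ i, w i ∈ V ^ m) ∧
      s v 1 c * ∑ i ∈ Finset.range m, (finrank k (V ^ i : Submodule k R) : ℝ) ≤ ∑ i, s v m (w i) := by
  induction m with
  | zero =>
    have := finite_pow hV 0
    obtain ⟨w, h1, h2, h3⟩ := ext_fam (V ^ 0) (fun i : Fin 0 => i.elim0) linearIndependent_empty_type
      (fun i => i.elim0) (s v 0) (hS.nn v hv 0)
    refine ⟨w, h1, h2, ?_⟩
    simpa using h3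
  | succ m ih =>
    obtain ⟨w, h1, h2, h3⟩ := ih
    have := finite_pow hV (m + 1)
    have hw0 : ∀ i, w i ≠ 0 := fun i => h1.ne_zero i
    have hcV1 : c ∈ V ^ 1 := by rwa [pow_one]
    have h4 : LinearIndependent k fun i => w i * c := by
      have h5 := h1.map' (LinearMap.mulRight k c) (LinearMap.ker_eq_bot.2 fun a b hab => mul_right_cancel₀ hc hab)
      exact h5
    obtain ⟨w', h5, h6, h7⟩ := ext_fam (V ^ (m + 1)) (fun i => w i * c) h4
      (fun i => by rw [pow_succ]; exact Submodule.mul_mem_mul (h2 i) hcV) (s v (m + 1)) (hS.nn v hv (m + 1))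
    refine ⟨w', h5, h6, le_trans ?_ h7⟩
    have h8 : ∀ i, s v (m + 1) (w i * c) = s v m (w i) + s v 1 c := fun i =>
      hS.mul v hv m 1 (w i) c (h2 i) hcV1 (hw0 i) hc
    rw [Finset.sum_congr rfl fun i _ => h8 i, Finset.sum_add_distrib, Finset.sum_const, Finset.card_univ, Fintype.card_fin,
      nsmul_eq_mul, Finset.sum_range_succ, mul_add]
    linarith

end sys

end Pool.Agent.QP.EF
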