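import Pool.Agent.Helper77.QP.EFa

/-!
# QP, block EF, part 2: powers of a subspace and of a hyperplane of it
-/

set_option autoImplicit false

namespace Pool.Agent.QP.EF

open Module Filter MvPolynomial

variable {k R : Type*} [Field k] [Field R] [Algebra k R]

/-- the elements of `V'^m V^n`, `V ≤ V' + k w` -/
theorem dec {V V' : Submodule k R} {w : R} (hV : V ≤ V' ⊔ Submodule.span k {w}) (n : ℕ) (r : R) (hr : r ∈ V ^ n) :
    ∃ p : ℕ → R, (∀ i, i ≤ n → p i ∈ V' ^ (n - i)) ∧ r = ∑ i ∈ Finset.range (n + 1), p i * w ^ i := by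
  refine Submodule.pow_induction_on_left' V (C := fun n r _ => ∃ p : ℕ → R, (∀ i, i ≤ n → p i ∈ V' ^ (n - i)) ∧
    r = ∑ i ∈ Finset.range (n + 1), p i * w ^ i) ?_ ?_ ?_ hr
  · intro a
    refine ⟨fun _ => algebraMap k R a, fun i hi => ?_, by simp⟩
    rw [Nat.zero_sub, pow_zero]
    exact Submodule.algebraMap_mem a
  · rintro x y i - - ⟨p, h1, h2⟩ ⟨p', h3, h4⟩
    refine ⟨fun i => p i + p' i, fun j hj => Submodule.add_mem _ (h1 j hj) (h3 j hj), ?_⟩
    rw [h2, h4, ← Finset.sum_add_distrib]
    exact Finset.sum_congr rfl fun j _ => by ring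
  · rintro m hm n x - ⟨p, h1, h2⟩
    obtain ⟨a, ha, b, hb, hab⟩ := Submodule.mem_sup.1 (hV hm)
    obtain ⟨c, rfl⟩ := Submodule.mem_span_singleton.1 hb
    refine ⟨fun i => (if i ≤ n then a * p i else 0) + (if i = 0 then 0 else c • p (i - 1)), fun i hi => ?_, ?_⟩
    · refine Submodule.add_mem _ ?_ ?_
      · split_ifs with h
        · have h3 : n.succ - i = (n - i) + 1 := by omega
          rw [h3, pow_succ']
          exact Submodule.mul_mem_mul ha (h1 i h)
        · exact Submodule.zero_mem _
      · split_ifs with h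
        · exact Submodule.zero_mem _
        · have h3 : n.succ - i = n - (i - 1) := by omega
          rw [h3]
          exact Submodule.smul_mem _ _ (h1 (i - 1) (by omega))
    · have h3 : ∑ i ∈ Finset.range (n.succ + 1), ((if i ≤ n then a * p i else 0) + (if i = 0 then 0 else c • p (i - 1))) * w ^ i =
          ∑ i ∈ Finset.range (n.succ + 1), (if i ≤ n then a * p i else 0) * w ^ i +
            ∑ i ∈ Finset.range (n.succ + 1), (if i = 0 then 0 else c • p (i - 1)) * w ^ i := by
        rw [← Finset.sum_add_distrib]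
        exact Finset.sum_congr rfl fun i _ => by ring
      have h4 : ∑ i ∈ Finset.range (n.succ + 1), (if i ≤ n then a * p i else 0) * w ^ i =
          a * ∑ i ∈ Finset.range (n + 1), p i * w ^ i := by
        rw [Finset.sum_range_succ, if_neg (by omega), zero_mul, add_zero, Finset.mul_sum]
        refine Finset.sum_congr rfl fun i hi => ?_
        rw [if_pos (by have := Finset.mem_range.1 hi; omega)]
        ring
      have h5 : ∑ i ∈ Finset.range (n.succ + 1), (if i = 0 then 0 else c • p (i - 1)) * w ^ i =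
          (c • w) * ∑ i ∈ Finset.range (n + 1), p i * w ^ i := by
        rw [Finset.sum_range_succ', if_pos rfl, zero_mul, add_zero, Finset.mul_sum]
        refine Finset.sum_congr rfl fun i _ => ?_
        rw [if_neg (Nat.succ_ne_zero i), Nat.add_sub_cancel, Algebra.smul_def, Algebra.smul_def]
        ring
      rw [h3, h4, h5, ← h2, ← hab]
      ring

theorem dec' {V V' : Submodule k R} {w : R} (hV : V ≤ V' ⊔ Submodule.span k {w}) (m n : ℕ) (r : R) (hr : r ∈ V' ^ m * V ^ n) :
    ∃ p : ℕ → R, (∀ i, i ≤ n → p i ∈ V' ^ (m + (n - i))) ∧ r = ∑ i ∈ Finset.range (n + 1), p i * w ^ i := by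
  refine Submodule.mul_induction_on (C := fun r => ∃ p : ℕ → R, (∀ i, i ≤ n → p i ∈ V' ^ (m + (n - i))) ∧
    r = ∑ i ∈ Finset.range (n + 1), p i * w ^ i) hr ?_ ?_
  · intro a ha b hb
    obtain ⟨p, h1, h2⟩ := dec hV n b hb
    refine ⟨fun i => a * p i, fun i hi => ?_, ?_⟩
    · rw [pow_add]
      exact Submodule.mul_mem_mul ha (h1 i hi)
    · rw [h2, Finset.mul_sum]
      exact Finset.sum_congr rfl fun i _ => by ring
  · rintro x y ⟨p, h1, h2⟩ ⟨p', h3, h4⟩
    refine ⟨fun i => p i + p' i, fun j hj => Submodule.add_mem _ (h1 j hj) (h3 j hj), ?_⟩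
    rw [h2, h4, ← Finset.sum_add_distrib]
    exact Finset.sum_congr rfl fun j _ => by ring

/-- dimension of a space of sums -/
theorem finrank_sum_le {n : ℕ} (W : Fin n → Submodule k R) (hW : ∀ i, Module.Finite k (W i)) (z : Fin n → R) (U : Submodule k R)
    (hU : ∀ r ∈ U, ∃ p : Fin n → R, (∀ i, p i ∈ W i) ∧ r = ∑ i, p i * z i) :
    finrank k U ≤ ∑ i, finrank k (W i) := by
  classical
  let f : (∀ i, W i) →ₗ[k] R := ∑ i, (LinearMap.mulRight k (z i)) ∘ₗ (W i).subtype ∘ₗ LinearMap.proj i
  have hf : ∀ p, f p = ∑ i, (p i : R) * z i := by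
    intro p
    simp [f, LinearMap.sum_apply]
  have h1 : U ≤ LinearMap.range f := by
    intro r hr
    obtain ⟨p, hp, h⟩ := hU r hr
    exact ⟨fun i => ⟨p i, hp i⟩, by rw [hf, h]⟩
  refine (Submodule.finrank_mono h1).trans ((LinearMap.finrank_range_le f).trans (le_of_eq ?_))
  rw [Module.finrank_pi_fintype]

/-- dimension of `V'^m V^n` -/
theorem finrank_dec_le {V V' : Submodule k R} {w : R} (hV : V ≤ V' ⊔ Submodule.span k {w}) (hV' : V'.FG) (m n : ℕ) :
    finrank k (V' ^ m * V ^ n : Submodule k R) ≤ ∑ i ∈ Finset.range (n + 1), finrank k (V' ^ (m + i) : Submodule k R) := by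
  have h1 := finrank_sum_le (fun i : Fin (n + 1) => V' ^ (m + (n - (i : ℕ)))) (fun i => finite_pow hV' _) (fun i => w ^ (i : ℕ))
    (V' ^ m * V ^ n) (fun r hr => by
      obtain ⟨p, h1, h2⟩ := dec' hV m n r hr
      refine ⟨fun i => p i, fun i => h1 i (Nat.lt_succ_iff.1 i.2), ?_⟩
      rw [h2, Finset.sum_range])
  refine h1.trans (le_of_eq ?_)
  rw [← Finset.sum_range fun i => finrank k (V' ^ (m + (n - i)) : Submodule k R), ← Finset.sum_range_reflect]
  refine Finset.sum_congr rfl fun i hi => ?_
  have := Finset.mem_range.1 hi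
  have h2 : n - (n + 1 - 1 - i) = i := by omega
  rw [h2]

theorem finrank_pow_le {V V' : Submodule k R} {w : R} (hV : V ≤ V' ⊔ Submodule.span k {w}) (hV' : V'.FG) (n : ℕ) :
    finrank k (V ^ n : Submodule k R) ≤ ∑ i ∈ Finset.range (n + 1), finrank k (V' ^ i : Submodule k R) := by
  have h1 := finrank_dec_le hV hV' 0 n
  rw [pow_zero, one_mul] at h1
  exact h1.trans (le_of_eq (Finset.sum_congr rfl fun i _ => by rw [zero_add]))

theorem dim1 (u : R) (n : ℕ) : finrank k ((Submodule.span k {u}) ^ n : Submodule k R) ≤ 1 := by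
  rw [Submodule.span_pow, Set.singleton_pow]
  exact (finrank_span_le_card ({u ^ n} : Set R)).trans (by simp)

theorem dim2 (u w : R) (n : ℕ) : finrank k ((Submodule.span k {u} ⊔ Submodule.span k {w}) ^ n : Submodule k R) ≤ n + 1 := by
  refine (finrank_pow_le le_rfl (Submodule.fg_span_singleton u) n).trans ?_
  refine (Finset.sum_le_sum fun i _ => dim1 u i).trans ?_
  simp

theorem dim3 (u w z : R) (n : ℕ) :
    2 * finrank k ((Submodule.span k {u} ⊔ Submodule.span k {w} ⊔ Submodule.span k {z}) ^ n : Submodule k R) ≤ (n + 1) * (n + 2) := by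
  have h1 := finrank_pow_le (V := Submodule.span k {u} ⊔ Submodule.span k {w} ⊔ Submodule.span k {z}) le_rfl
    ((Submodule.fg_span_singleton u).sup (Submodule.fg_span_singleton w)) n
  have h2 := h1.trans (Finset.sum_le_sum fun i _ => dim2 (k := k) u w i)
  have h3 : ∀ n : ℕ, 2 * ∑ i ∈ Finset.range (n + 1), (i + 1) = (n + 1) * (n + 2) := by
    intro n
    induction n with
    | zero => simp
    | succ n ih =>
      rw [Finset.sum_range_succ, mul_add, ih]
      ring
  rw [← h3]
  omega

/-- `J V V' i = V' V^(i-1)`, zero for `i = 0` -/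
def J (V V' : Submodule k R) : ℕ → Submodule k R
  | 0 => ⊥
  | (i + 1) => V' * V ^ i

theorem mul_J {V V' : Submodule k R} (i : ℕ) {a b : R} (ha : a ∈ V) (hb : b ∈ J V V' i) : a * b ∈ J V V' (i + 1) := by
  cases i with
  | zero =>
    have : b = 0 := hb
    rw [this, mul_zero]
    exact Submodule.zero_mem _
  | succ i =>
    have h1 : a * b ∈ V * (V' * V ^ i) := Submodule.mul_mem_mul ha hb
    have h2 : V * (V' * V ^ i) = V' * V ^ (i + 1) := by
      rw [pow_succ']
      ring
    rw [h2] at h1
    exact h1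

/-- the value of a form at a point, modulo the hyperplane `V'` -/
theorem monic {ι : Type*} {V V' : Submodule k R} {w : R} (hV' : V' ≤ V) (hw : w ∈ V) (y : ι → R) (c : ι → k)
    (hy : ∀ j, y j - c j • w ∈ V') (D : ℕ) (p : MvPolynomial ι k) (hp : p.IsHomogeneous D) :
    aeval y p - eval c p • w ^ D ∈ J V V' D := by
  have hp' : p ∈ (homogeneousSubmodule ι k 1) ^ D := by
    rw [homogeneousSubmodule_one_pow]
    exact hp
  have hlin : ∀ m ∈ homogeneousSubmodule ι k 1, aeval y m - eval c m • w ∈ V' := by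
    intro m hm
    rw [homogeneousSubmodule_one_eq_span_X] at hm
    refine Submodule.span_induction ?_ ?_ ?_ ?_ hm
    · rintro _ ⟨j, rfl⟩
      rw [aeval_X, eval_X]
      exact hy j
    · simp
    · intro a b _ _ ha hb
      have h1 : aeval y (a + b) - eval c (a + b) • w = (aeval y a - eval c a • w) + (aeval y b - eval c b • w) := by
        rw [map_add, map_add, add_smul]
        ring
      rw [h1]
      exact Submodule.add_mem _ ha hb
    · intro t a _ ha
      have h1 : aeval y (t • a) - eval c (t • a) • w = t • (aeval y a - eval c a • w) := by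
        rw [map_smul, smul_eval, smul_sub, smul_smul]
      rw [h1]
      exact Submodule.smul_mem _ _ ha
  refine Submodule.pow_induction_on_left' (homogeneousSubmodule ι k 1)
    (C := fun D p _ => aeval y p - eval c p • w ^ D ∈ J V V' D) ?_ ?_ ?_ hp'
  · intro a
    have h1 : aeval y (algebraMap k (MvPolynomial ι k) a) - eval c (algebraMap k (MvPolynomial ι k) a) • w ^ 0 = 0 := by
      rw [algebraMap_eq, aeval_C, eval_C, pow_zero, Algebra.smul_def, mul_one, sub_self]
    rw [h1]
    exact Submodule.zero_mem _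
  · intro a b i _ _ ha hb
    have h1 : aeval y (a + b) - eval c (a + b) • w ^ i = (aeval y a - eval c a • w ^ i) + (aeval y b - eval c b • w ^ i) := by
      rw [map_add, map_add, add_smul]
      ring
    rw [h1]
    exact Submodule.add_mem _ ha hb
  · intro m hm i x _ hx
    have hl := hlin m hm
    have hmV : aeval y m ∈ V := by
      have h1 : aeval y m = (aeval y m - eval c m • w) + eval c m • w := by ring
      rw [h1]
      exact Submodule.add_mem _ (hV' hl) (Submodule.smul_mem _ _ hw)
    have h1 : aeval y (m * x) - eval c (m * x) • w ^ i.succ =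
        aeval y m * (aeval y x - eval c x • w ^ i) + eval c x • ((aeval y m - eval c m • w) * w ^ i) := by
      rw [map_mul, map_mul, Nat.succ_eq_add_one, pow_succ]
      simp only [Algebra.smul_def, map_mul]
      ring
    rw [h1]
    refine Submodule.add_mem _ (mul_J i hmV hx) (Submodule.smul_mem _ _ ?_)
    show _ ∈ V' * V ^ i
    exact Submodule.mul_mem_mul hl (Submodule.pow_mem_pow _ hw i)

/-- the powers of `V` when `w` is integral over `V'` -/
theorem pow_le {V V' : Submodule k R} {w : R} (hV' : V' ≤ V) (hw : w ∈ V) (hV : V ≤ V' ⊔ Submodule.span k {w}) (n : ℕ)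
    (h : w ^ (n + 1) ∈ V' * V ^ n) (m : ℕ) : V ^ (m + n) ≤ V' ^ m * V ^ n := by
  have h1 : V ^ (n + 1) ≤ V' * V ^ n := by
    intro r hr
    obtain ⟨p, h2, h3⟩ := dec hV (n + 1) r hr
    rw [h3]
    refine Submodule.sum_mem _ fun i hi => ?_
    have hi' := Finset.mem_range.1 hi
    rcases Nat.lt_or_ge i (n + 1) with h4 | h4
    · have h5 := h2 i (by omega)
      have h6 : n + 1 - i = (n - i) + 1 := by omega
      rw [h6, pow_succ'] at h5
      have h7 : p i * w ^ i ∈ (V' * V' ^ (n - i)) * V ^ i := Submodule.mul_mem_mul h5 (Submodule.pow_mem_pow _ hw i)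
      have h8 : (V' * V' ^ (n - i)) * V ^ i ≤ V' * V ^ n := by
        rw [mul_assoc]
        have h9 : V' ^ (n - i) * V ^ i ≤ V ^ n := by
          have h10 : V ^ n = V ^ (n - i) * V ^ i := by rw [← pow_add]; congr 1; omega
          rw [h10]
          exact mul_le_mul' (pow_le_pow_left' hV' _) le_rfl
        exact mul_le_mul' le_rfl h9
      exact h8 h7
    · have h5 : i = n + 1 := by omega
      subst h5
      have h6 := h2 (n + 1) le_rfl
      rw [Nat.sub_self, pow_zero] at h6
      obtain ⟨a, ha⟩ := Submodule.mem_one.1 h6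
      rw [← ha, ← Algebra.smul_def]
      exact Submodule.smul_mem _ _ h
  induction m with
  | zero => simp
  | succ m ih =>
    calc V ^ (m + 1 + n) = V ^ (m + n) * V := by rw [← pow_succ]; congr 1; omega
      _ ≤ V' ^ m * V ^ n * V := mul_le_mul' ih le_rfl
      _ = V' ^ m * V ^ (n + 1) := by rw [mul_assoc, ← pow_succ]
      _ ≤ V' ^ m * (V' * V ^ n) := mul_le_mul' le_rfl h1
      _ = V' ^ (m + 1) * V ^ n := by rw [← mul_assoc, ← pow_succ]

end Pool.Agent.QP.EF
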