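import Pool.Agent.Helper77.QP.EFb

/-!
# QP, block EF, part 3: the rank over a free hyperplane
-/

set_option autoImplicit false

namespace Pool.Agent.QP.EF

open Module Filter MvPolynomial

variable {k R : Type*} [Field k] [Field R] [Algebra k R]

/-- no homogeneous relation -/
def Free {ι : Type*} (k : Type*) {R : Type*} [Field k] [Field R] [Algebra k R] (z : ι → R) : Prop :=
  ∀ (m : ℕ) (p : MvPolynomial ι k), p.IsHomogeneous m → aeval z p = 0 → p = 0

/-- independence of `1, w, .., w^(e-1)` over the powers of `V'` -/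
def Qe (V' : Submodule k R) (w : R) (e : ℕ) : Prop :=
  ∀ (M : ℕ) (p : ℕ → R), (∀ i, i < e → p i ∈ V' ^ (M + (e - 1 - i))) → ∑ i ∈ Finset.range e, p i * w ^ i = 0 →
    ∀ i, i < e → p i = 0

theorem finrank_mul_left (W : Submodule k R) (r : R) (hr : r ≠ 0) :
    finrank k (Submodule.span k {r} * W : Submodule k R) = finrank k W := by
  have h1 : (Submodule.span k {r} * W : Submodule k R) = W.map (LinearMap.mulLeft k r) := by
    ext x
    rw [Submodule.mem_span_singleton_mul, Submodule.mem_map]
    rfl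
  rw [h1]
  exact (LinearEquiv.finrank_eq (Submodule.equivMapOfInjective _ (fun a b hab => mul_left_cancel₀ hr hab) W)).symm

theorem finrank_pow_mono {V : Submodule k R} (hV : V.FG) {w : R} (hw : w ∈ V) (hw0 : w ≠ 0) (m n : ℕ) :
    finrank k (V ^ m : Submodule k R) ≤ finrank k (V ^ (m + n) : Submodule k R) := by
  have := finite_pow hV (m + n)
  rw [← finrank_mul_left (V ^ m) (w ^ n) (pow_ne_zero n hw0)]
  refine Submodule.finrank_mono ?_
  rw [pow_add, mul_comm (V ^ m)]
  refine mul_le_mul' ?_ le_rfl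
  rw [Submodule.span_singleton_le_iff_mem]
  exact Submodule.pow_mem_pow _ hw n

/-- the rank of `k[V]` over `k[V']` -/
theorem exists_rank {V V' : Submodule k R} {w : R} (hV' : V' ≤ V) (hw : w ∈ V) (hw0 : w ≠ 0) (hV : V ≤ V' ⊔ Submodule.span k {w})
    (hFG : V'.FG) (hVFG : V.FG) (n : ℕ) (h : w ^ (n + 1) ∈ V' * V ^ n)
    (hdim : ∀ m, 2 * finrank k (V' ^ m : Submodule k R) ≤ (m + 1) * (m + 2)) :
    ∃ e c : ℕ, Qe V' w (e + 1) ∧ ∀ m, 2 * finrank k (V ^ m : Submodule k R) ≤ (e + 1) * ((m + c + 1) * (m + c + 2)) := by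
  classical
  have hQ1 : Qe V' w 1 := by
    intro M p hp hs i hi
    have : i = 0 := by omega
    subst this
    simpa using hs
  have hQn : ¬ Qe V' w (n + 1 + 1) := by
    intro hQ
    have h1 : w ^ (n + 1) ∈ V' ^ 1 * V ^ n := by rwa [pow_one]
    obtain ⟨p, h2, h3⟩ := dec' hV 1 n _ h1
    have h4 := hQ 0 (fun i => if i = n + 1 then -1 else p i) (fun i hi => by
      split_ifs with h5
      · subst h5
        have h6 : 0 + (n + 1 + 1 - 1 - (n + 1)) = 0 := by omega
        rw [h6, pow_zero]
        exact Submodule.neg_mem _ (Submodule.one_le.1 le_rfl)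
      · have h6 : 0 + (n + 1 + 1 - 1 - i) = 1 + (n - i) := by omega
        rw [h6]
        exact h2 i (by omega)) (by
      rw [Finset.sum_range_succ, if_pos rfl, neg_one_mul, add_neg_eq_zero]
      conv_rhs => rw [h3]
      refine Finset.sum_congr rfl fun i hi => ?_
      rw [if_neg (by have := Finset.mem_range.1 hi; omega)]) (n + 1) (by omega)
    simp at h4
  have hex : ∃ e, ¬ Qe V' w (e + 1) := ⟨n + 1, hQn⟩
  obtain ⟨e, he⟩ : ∃ e, Nat.find hex = e + 1 := by
    refine Nat.exists_eq_succ_of_ne_zero fun h0 => ?_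
    have := Nat.find_spec hex
    rw [h0] at this
    exact this hQ1
  have hen : e ≤ n := by
    have := Nat.find_min' hex hQn
    omega
  have hQe : Qe V' w (e + 1) := by
    by_contra hcon
    have := Nat.find_min' hex hcon
    omega
  have hQe2 : ¬ Qe V' w (e + 1 + 1) := by
    have := Nat.find_spec hex
    rwa [he] at this
  unfold Qe at hQe2
  push Not at hQe2
  obtain ⟨M, p, hp, hsum, i0, hi0, hi0'⟩ := hQe2
  set r := p (e + 1) with hr
  have hrM : r ∈ V' ^ M := by
    have h1 := hp (e + 1) (by omega)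
    have h2 : M + (e + 1 + 1 - 1 - (e + 1)) = M := by omega
    rwa [h2] at h1
  rw [Finset.sum_range_succ] at hsum
  have hr0 : r ≠ 0 := by
    intro h0
    rw [← hr, h0, zero_mul, add_zero] at hsum
    have h1 := hQe (M + 1) p (fun i hi => by
      have h2 : M + 1 + (e + 1 - 1 - i) = M + (e + 1 + 1 - 1 - i) := by omega
      rw [h2]
      exact hp i (by omega)) hsum
    rcases Nat.lt_or_ge i0 (e + 1) with h2 | h2
    · exact hi0' (h1 i0 h2)
    · have h3 : i0 = e + 1 := by omega
      rw [h3] at hi0'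
      exact hi0' h0
  have hmem : ∀ i a, i ≤ e → a ∈ V' ^ (M + 1 + (e - i)) → a * w ^ i ∈ V' ^ (M + 1) * V ^ e := by
    intro i a hi ha
    rw [pow_add] at ha
    have h1 : a * w ^ i ∈ V' ^ (M + 1) * V' ^ (e - i) * V ^ i := Submodule.mul_mem_mul ha (Submodule.pow_mem_pow _ hw i)
    have h2 : V ^ e = V ^ (e - i) * V ^ i := by rw [← pow_add]; congr 1; omega
    rw [h2]
    have h3 : V' ^ (M + 1) * V' ^ (e - i) * V ^ i ≤ V' ^ (M + 1) * (V ^ (e - i) * V ^ i) := by
      rw [mul_assoc]
      exact mul_le_mul' le_rfl (mul_le_mul' (pow_le_pow_left' hV' _) le_rfl)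
    exact h3 h1
  have hkey : Submodule.span k {r} * V ^ (e + 1) ≤ V' ^ (M + 1) * V ^ e := by
    intro x hx
    obtain ⟨z, hz, rfl⟩ := Submodule.mem_span_singleton_mul.1 hx
    obtain ⟨q, h1, h2⟩ := dec hV (e + 1) z hz
    rw [h2, Finset.mul_sum, Finset.sum_range_succ]
    refine Submodule.add_mem _ (Submodule.sum_mem _ fun i hi => ?_) ?_
    · have hi' := Finset.mem_range.1 hi
      rw [← mul_assoc]
      refine hmem i _ (by omega) ?_
      have h3 : M + 1 + (e - i) = M + (e + 1 - i) := by omega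
      rw [h3, pow_add]
      exact Submodule.mul_mem_mul hrM (h1 i (by omega))
    · have h3 := h1 (e + 1) le_rfl
      rw [Nat.sub_self, pow_zero] at h3
      obtain ⟨t, ht⟩ := Submodule.mem_one.1 h3
      have h4 : r * (q (e + 1) * w ^ (e + 1)) = -(t • ∑ i ∈ Finset.range (e + 1), p i * w ^ i) := by
        have h5 : r * w ^ (e + 1) = -∑ i ∈ Finset.range (e + 1), p i * w ^ i := by
          rw [eq_neg_iff_add_eq_zero, add_comm]
          exact hsum
        rw [← ht, Algebra.smul_def, mul_left_comm, h5, mul_neg]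
      rw [h4]
      refine Submodule.neg_mem _ (Submodule.smul_mem _ _ (Submodule.sum_mem _ fun i hi => ?_))
      have hi' := Finset.mem_range.1 hi
      refine hmem i _ (by omega) ?_
      have h5 : M + 1 + (e - i) = M + (e + 1 + 1 - 1 - i) := by omega
      rw [h5]
      exact hp i (by omega)
  have hiter : ∀ j, Submodule.span k {r} ^ j * V ^ (e + j) ≤ V' ^ (j * (M + 1)) * V ^ e := by
    intro j
    induction j with
    | zero => simp
    | succ j ih =>
      calc Submodule.span k {r} ^ (j + 1) * V ^ (e + (j + 1))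
          = Submodule.span k {r} * (Submodule.span k {r} ^ j * V ^ (e + j)) * V := by
            rw [pow_succ', ← add_assoc, pow_succ]
            ring
        _ ≤ Submodule.span k {r} * (V' ^ (j * (M + 1)) * V ^ e) * V := mul_le_mul' (mul_le_mul' le_rfl ih) le_rfl
        _ = V' ^ (j * (M + 1)) * (Submodule.span k {r} * V ^ (e + 1)) := by
            rw [pow_succ]
            ring
        _ ≤ V' ^ (j * (M + 1)) * (V' ^ (M + 1) * V ^ e) := mul_le_mul' le_rfl hkey
        _ = V' ^ ((j + 1) * (M + 1)) * V ^ e := by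
            rw [← mul_assoc, ← pow_add]
            congr 2
            ring
  set jj := n - e with hjj
  set c1 := jj * (M + 1) with hc1
  have hfin : ∀ m, finrank k (V ^ (m + n) : Submodule k R) ≤ ∑ i ∈ Finset.range (e + 1), finrank k (V' ^ (m + c1 + i) : Submodule k R) := by
    intro m
    have h1 : Submodule.span k {r ^ jj} * V ^ (m + n) ≤ V' ^ (m + c1) * V ^ e := by
      have h2 : (Submodule.span k {r ^ jj} : Submodule k R) = Submodule.span k {r} ^ jj := by
        rw [Submodule.span_pow, Set.singleton_pow]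
      rw [h2]
      have h3 := hiter jj
      have h4 : e + jj = n := by omega
      rw [h4] at h3
      calc Submodule.span k {r} ^ jj * V ^ (m + n) ≤ Submodule.span k {r} ^ jj * (V' ^ m * V ^ n) :=
            mul_le_mul' le_rfl (pow_le hV' hw hV n h m)
        _ = V' ^ m * (Submodule.span k {r} ^ jj * V ^ n) := by ring
        _ ≤ V' ^ m * (V' ^ c1 * V ^ e) := mul_le_mul' le_rfl h3
        _ = V' ^ (m + c1) * V ^ e := by rw [← mul_assoc, ← pow_add]
    have hf : Module.Finite k (V' ^ (m + c1) * V ^ e : Submodule k R) := Module.Finite.iff_fg.2 ((hFG.pow _).mul (hVFG.pow _))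
    rw [← finrank_mul_left (V ^ (m + n)) (r ^ jj) (pow_ne_zero _ hr0)]
    exact (Submodule.finrank_mono h1).trans (finrank_dec_le hV hFG _ _)
  refine ⟨e, c1 + e, hQe, fun m => ?_⟩
  have h1 := (finrank_pow_mono hVFG hw hw0 m n).trans (hfin m)
  calc 2 * finrank k (V ^ m : Submodule k R) ≤ 2 * ∑ i ∈ Finset.range (e + 1), finrank k (V' ^ (m + c1 + i) : Submodule k R) :=
        Nat.mul_le_mul_left 2 h1
    _ = ∑ i ∈ Finset.range (e + 1), 2 * finrank k (V' ^ (m + c1 + i) : Submodule k R) := Finset.mul_sum _ _ _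
    _ ≤ ∑ i ∈ Finset.range (e + 1), (m + (c1 + e) + 1) * (m + (c1 + e) + 2) := by
        refine Finset.sum_le_sum fun i hi => (hdim _).trans ?_
        have := Finset.mem_range.1 hi
        exact Nat.mul_le_mul (by omega) (by omega)
    _ = (e + 1) * ((m + (c1 + e) + 1) * (m + (c1 + e) + 2)) := by
        rw [Finset.sum_const, Finset.card_range, smul_eq_mul]

/-- linear growth in the case of a relation -/
theorem exists_hyper {n : ℕ} (z : Fin (n + 1) → R) (c : Fin (n + 1) → k) (hc : c ≠ 0) :
    ∃ (u : Fin n → R) (w : R), w ∈ Submodule.span k (Set.range z) ∧ Submodule.span k (Set.range u) ≤ Submodule.span k (Set.range z) ∧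
      Submodule.span k (Set.range z) ≤ Submodule.span k (Set.range u) ⊔ Submodule.span k {w} ∧
      ∀ j, z j - c j • w ∈ Submodule.span k (Set.range u) := by
  classical
  obtain ⟨j0, hj0⟩ := Function.ne_iff.1 hc
  have hj0' : c j0 ≠ 0 := hj0
  set w : R := (c j0)⁻¹ • z j0 with hw
  have hwz : w ∈ Submodule.span k (Set.range z) := Submodule.smul_mem _ _ (Submodule.subset_span ⟨j0, rfl⟩)
  set u : Fin n → R := fun i => z (j0.succAbove i) - c (j0.succAbove i) • w with hu
  have h4 : ∀ j, z j - c j • w ∈ Submodule.span k (Set.range u) := by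
    intro j
    rcases Fin.eq_self_or_eq_succAbove j0 j with h | ⟨i, h⟩
    · rw [h, hw, smul_smul, mul_inv_cancel₀ hj0', one_smul, sub_self]
      exact Submodule.zero_mem _
    · rw [h]
      exact Submodule.subset_span ⟨i, rfl⟩
  refine ⟨u, w, hwz, ?_, ?_, h4⟩
  · rw [Submodule.span_le]
    rintro _ ⟨i, rfl⟩
    exact Submodule.sub_mem _ (Submodule.subset_span ⟨_, rfl⟩) (Submodule.smul_mem _ _ hwz)
  · rw [Submodule.span_le]
    rintro _ ⟨j, rfl⟩
    have h5 : z j = (z j - c j • w) + c j • w := by ring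
    rw [h5]
    exact Submodule.add_mem _ (Submodule.mem_sup_left (h4 j)) (Submodule.mem_sup_right (Submodule.smul_mem _ _
      (Submodule.mem_span_singleton_self w)))

end Pool.Agent.QP.EF
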