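import Pool.Agent.Helper77.QP.EFc

/-!
# QP, block EF, part 4: growth in the case of a relation, and the monomial family
-/

set_option autoImplicit false

namespace Pool.Agent.QP.EF

open Module Filter MvPolynomial

variable {k R τ : Type*} [Field k] [Field R] [Algebra k R]

theorem finrank_mul_le (A B : Submodule k R) (hA : A.FG) (hB : B.FG) :
    finrank k (A * B : Submodule k R) ≤ finrank k A * finrank k B := by
  have : Module.Finite k A := Module.Finite.iff_fg.2 hA
  have : Module.Finite k B := Module.Finite.iff_fg.2 hB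
  rw [← Submodule.mulMap_range A B, ← Module.finrank_tensorProduct (R := k) (M := A) (M' := B)]
  exact LinearMap.finrank_range_le _

/-- a nonzero homogeneous relation, at a point where it does not vanish -/
theorem monic_pow {ι : Type*} {V V' : Submodule k R} {w : R} (hV' : V' ≤ V) (hw : w ∈ V) (y : ι → R) (c : ι → k)
    (hy : ∀ j, y j - c j • w ∈ V') (D : ℕ) (p : MvPolynomial ι k) (hp : p.IsHomogeneous D) (h0 : aeval y p = 0)
    (hc : eval c p ≠ 0) : ∃ n, w ^ (n + 1) ∈ V' * V ^ n := by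
  have h1 := monic hV' hw y c hy D p hp
  rw [h0, zero_sub, Submodule.neg_mem_iff, Submodule.smul_mem_iff _ hc] at h1
  cases D with
  | zero =>
    exfalso
    have h2 : w ^ 0 = 0 := h1
    rw [pow_zero] at h2
    exact one_ne_zero h2
  | succ n => exact ⟨n, h1⟩

theorem exists_point [Infinite k] {n : ℕ} (p : MvPolynomial (Fin n) k) (hp : p ≠ 0) (D : ℕ) (hD : p.IsHomogeneous D) (hD0 : D ≠ 0) :
    ∃ c : Fin n → k, c ≠ 0 ∧ eval c p ≠ 0 := by
  by_contra hcon
  push Not at hcon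
  apply hp
  apply MvPolynomial.funext
  intro c
  rw [map_zero]
  by_cases hc : c = 0
  · rw [hc]
    have h1 : eval (0 : Fin n → k) p = coeff 0 p := by
      rw [eval_eq]
      have h2 : ∀ d ∈ p.support, d ≠ 0 → coeff d p * ∏ i ∈ d.support, (0 : Fin n → k) i ^ d i = 0 := by
        intro d _ hd
        obtain ⟨i, hi⟩ := Finsupp.support_nonempty_iff.2 hd
        rw [Finset.prod_eq_zero hi (by simp [Finsupp.mem_support_iff.1 hi]), mul_zero]
      by_cases h3 : (0 : Fin n →₀ ℕ) ∈ p.support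
      · rw [Finset.sum_eq_single_of_mem _ h3 h2]
        simp
      · rw [Finset.sum_eq_zero fun d hd => h2 d hd (fun h => h3 (h ▸ hd)), notMem_support_iff.1 h3]
    rw [h1]
    refine hD.coeff_eq_zero ?_
    simpa using hD0.symm
  · exact hcon c hc

/-- quadratic growth -/
theorem growth2 {V V' : Submodule k R} {w : R} (hV' : V' ≤ V) (hw : w ∈ V) (hw0 : w ≠ 0) (hV : V ≤ V' ⊔ Submodule.span k {w})
    (hFG : V'.FG) (hVFG : V.FG) (n : ℕ) (h : w ^ (n + 1) ∈ V' * V ^ n)
    (hdim : ∀ m, 2 * finrank k (V' ^ m : Submodule k R) ≤ (m + 1) * (m + 2)) :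
    ∃ K : ℕ, ∀ m, finrank k (V ^ m : Submodule k R) ≤ K * (m + 1) ^ 2 := by
  refine ⟨finrank k (V ^ n : Submodule k R), fun m => ?_⟩
  have hf : Module.Finite k (V' ^ m * V ^ n : Submodule k R) := Module.Finite.iff_fg.2 ((hFG.pow _).mul (hVFG.pow _))
  have h1 := (finrank_pow_mono hVFG hw hw0 m n).trans ((Submodule.finrank_mono (pow_le hV' hw hV n h m)).trans
    (finrank_mul_le _ _ (hFG.pow m) (hVFG.pow n)))
  have h2 := hdim m
  have h3 : finrank k (V' ^ m : Submodule k R) ≤ (m + 1) ^ 2 := by nlinarith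
  calc finrank k (V ^ m : Submodule k R) ≤ finrank k (V' ^ m : Submodule k R) * finrank k (V ^ n : Submodule k R) := h1
    _ ≤ (m + 1) ^ 2 * finrank k (V ^ n : Submodule k R) := Nat.mul_le_mul_right _ h3
    _ = finrank k (V ^ n : Submodule k R) * (m + 1) ^ 2 := mul_comm _ _

/-- linear growth, if the hyperplane `V'` has a homogeneous relation -/
theorem growth1 [Infinite k] {V : Submodule k R} {w : R} (z : Fin 3 → R) (hz : LinearIndependent k z) (hV' : Submodule.span k (Set.range z) ≤ V)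
    (hw : w ∈ V) (hw0 : w ≠ 0) (hV : V ≤ Submodule.span k (Set.range z) ⊔ Submodule.span k {w}) (hVFG : V.FG) (n : ℕ)
    (h : w ^ (n + 1) ∈ Submodule.span k (Set.range z) * V ^ n) (hnf : ¬ Free k z) :
    ∃ K : ℕ, ∀ m, finrank k (V ^ m : Submodule k R) ≤ K * (m + 1) ^ 1 := by
  set V' := Submodule.span k (Set.range z) with hV'def
  have hFG : V'.FG := Submodule.fg_span (Set.finite_range z)
  unfold Free at hnf
  push Not at hnf
  obtain ⟨D, p, hp, hp0, hpne⟩ := hnf
  have hD0 : D ≠ 0 := by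
    rintro rfl
    have h1 : p ∈ homogeneousSubmodule (Fin 3) k 0 := hp
    rw [homogeneousSubmodule_zero] at h1
    obtain ⟨a, ha⟩ := Submodule.mem_one.1 h1
    rw [← ha, AlgHom.commutes] at hp0
    have h2 : a = 0 := (map_eq_zero _).1 hp0
    rw [h2, map_zero] at ha
    exact hpne ha.symm
  obtain ⟨c, hc, hcp⟩ := exists_point p hpne D hp hD0
  obtain ⟨u, w', h1, h2, h3, h4⟩ := exists_hyper z c hc
  rw [← hV'def] at h1 h2 h3
  obtain ⟨n', hn'⟩ := monic_pow h2 h1 z c h4 D p hp hp0 hcp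
  have hu : Submodule.span k (Set.range u) = Submodule.span k {u 0} ⊔ Submodule.span k {u 1} := by
    rw [← Submodule.span_union]
    congr 1
    ext x
    constructor
    · rintro ⟨i, rfl⟩
      fin_cases i
      · exact Or.inl rfl
      · exact Or.inr rfl
    · rintro (h | h)
      · exact ⟨0, h.symm⟩
      · exact ⟨1, h.symm⟩
  have hFG2 : (Submodule.span k (Set.range u)).FG := Submodule.fg_span (Set.finite_range u)
  have hz0 : z 0 ∈ V' := Submodule.subset_span ⟨0, rfl⟩
  have hz0' : z 0 ≠ 0 := hz.ne_zero 0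
  refine ⟨finrank k (V' ^ n' : Submodule k R) * finrank k (V ^ n : Submodule k R), fun m => ?_⟩
  have hf1 : Module.Finite k (V' ^ (m + n') * V ^ n : Submodule k R) := Module.Finite.iff_fg.2 ((hFG.pow _).mul (hVFG.pow _))
  have hf2 : Module.Finite k (Submodule.span k (Set.range u) ^ m * V' ^ n' : Submodule k R) :=
    Module.Finite.iff_fg.2 ((hFG2.pow _).mul (hFG.pow _))
  have e1 : finrank k (V ^ m : Submodule k R) ≤ finrank k (V' ^ (m + n') : Submodule k R) * finrank k (V ^ n : Submodule k R) := by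
    refine (finrank_pow_mono hVFG hw hw0 m (n' + n)).trans ?_
    rw [← add_assoc]
    exact (Submodule.finrank_mono (pow_le hV' hw hV n h (m + n'))).trans (finrank_mul_le _ _ (hFG.pow _) (hVFG.pow n))
  have e2 : finrank k (V' ^ (m + n') : Submodule k R) ≤ (m + 1) * finrank k (V' ^ n' : Submodule k R) := by
    refine ((Submodule.finrank_mono (pow_le h2 h1 h3 n' hn' m)).trans (finrank_mul_le _ _ (hFG2.pow _) (hFG.pow n'))).trans ?_
    refine Nat.mul_le_mul_right _ ?_
    rw [hu]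
    exact dim2 _ _ m
  calc finrank k (V ^ m : Submodule k R) ≤ finrank k (V' ^ (m + n') : Submodule k R) * finrank k (V ^ n : Submodule k R) := e1
    _ ≤ ((m + 1) * finrank k (V' ^ n' : Submodule k R)) * finrank k (V ^ n : Submodule k R) := Nat.mul_le_mul_right _ e2
    _ = finrank k (V' ^ n' : Submodule k R) * finrank k (V ^ n : Submodule k R) * (m + 1) ^ 1 := by ring

/-! ### the index set -/

/-- pairs `(a, b)` with `a + b ≤ n` -/
def Tn (n : ℕ) : Finset (ℕ × ℕ) := (Finset.range (n + 1) ×ˢ Finset.range (n + 1)).filter fun x => x.1 + x.2 ≤ n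

theorem mem_Tn {n : ℕ} {x : ℕ × ℕ} : x ∈ Tn n ↔ x.1 + x.2 ≤ n := by
  unfold Tn
  rw [Finset.mem_filter, Finset.mem_product, Finset.mem_range, Finset.mem_range]
  omega

theorem sum_Tn_swap (n : ℕ) : ∑ x ∈ Tn n, (x.2 : ℝ) = ∑ x ∈ Tn n, (x.1 : ℝ) := by
  refine Finset.sum_nbij' (fun x => (x.2, x.1)) (fun x => (x.2, x.1)) ?_ ?_ ?_ ?_ ?_
  · intro x hx
    rw [mem_Tn] at hx ⊢
    omega
  · intro x hx
    rw [mem_Tn] at hx ⊢
    omega
  · intro x _; rfl
  · intro x _; rfl
  · intro x _; rfl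

theorem sum_Tn (n : ℕ) : 6 * ∑ x ∈ Tn n, (x.1 : ℝ) = n * (n + 1) * (n + 2) := by
  have h1 : ∑ x ∈ Tn n, (x.1 : ℝ) = ∑ a ∈ Finset.range (n + 1), (a : ℝ) * (n + 1 - a) := by
    unfold Tn
    rw [Finset.sum_filter, Finset.sum_product]
    refine Finset.sum_congr rfl fun a ha => ?_
    have ha' := Finset.mem_range.1 ha
    rw [← Finset.sum_filter]
    have h2 : (Finset.range (n + 1)).filter (fun b => (a, b).1 + (a, b).2 ≤ n) = Finset.range (n + 1 - a) := by
      ext b
      rw [Finset.mem_filter, Finset.mem_range, Finset.mem_range]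
      simp only
      omega
    rw [h2]
    show ∑ _b ∈ Finset.range (n + 1 - a), (a : ℝ) = _
    rw [Finset.sum_const, Finset.card_range, nsmul_eq_mul, mul_comm]
    congr 1
    rw [Nat.cast_sub (by omega)]
    push_cast
    ring
  rw [h1]
  clear h1
  have h3 : ∀ n : ℕ, 2 * ∑ a ∈ Finset.range (n + 1), (a : ℝ) = n * (n + 1) := by
    intro n
    induction n with
    | zero => simp
    | succ n ih =>
      rw [Finset.sum_range_succ, mul_add, ih]
      push_cast
      ring
  induction n with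
  | zero => simp
  | succ n ih =>
    rw [Finset.sum_range_succ]
    have h4 : ∑ a ∈ Finset.range (n + 1), (a : ℝ) * (((n + 1 : ℕ) : ℝ) + 1 - a) =
        ∑ a ∈ Finset.range (n + 1), (a : ℝ) * ((n : ℝ) + 1 - a) + ∑ a ∈ Finset.range (n + 1), (a : ℝ) := by
      rw [← Finset.sum_add_distrib]
      refine Finset.sum_congr rfl fun a _ => ?_
      push_cast
      ring
    rw [h4]
    have h5 := h3 n
    push_cast
    linear_combination ih + 3 * h5

/-- sizes of powers -/
theorem Sys.one {V : Submodule k R} {P : Finset τ} {s : τ → ℕ → R → ℝ} (hS : Sys V P s) {v : τ} (hv : v ∈ P) : s v 0 1 = 0 := by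
  have h1 : (1 : R) ∈ V ^ 0 := by rw [pow_zero]; exact Submodule.one_le.1 le_rfl
  have h2 := hS.mul v hv 0 0 1 1 h1 h1 one_ne_zero one_ne_zero
  rw [mul_one, Nat.add_zero] at h2
  linarith

theorem Sys.pow {V : Submodule k R} {P : Finset τ} {s : τ → ℕ → R → ℝ} (hS : Sys V P s) {v : τ} (hv : v ∈ P) {z : R} (hz : z ∈ V)
    (hz0 : z ≠ 0) (n : ℕ) : s v n (z ^ n) = n * s v 1 z := by
  induction n with
  | zero => rw [pow_zero, hS.one hv, Nat.cast_zero, zero_mul]
  | succ n ih =>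
    have h1 := hS.mul v hv n 1 (z ^ n) z (Submodule.pow_mem_pow _ hz n) (by rwa [pow_one]) (pow_ne_zero n hz0) hz0
    rw [pow_succ, h1, ih]
    push_cast
    ring

theorem Sys.mono3 {V : Submodule k R} {P : Finset τ} {s : τ → ℕ → R → ℝ} (hS : Sys V P s) {v : τ} (hv : v ∈ P) (z : Fin 3 → R)
    (hz : ∀ i, z i ∈ V) (hz0 : ∀ i, z i ≠ 0) (w : R) (hw : w ∈ V) (hw0 : w ≠ 0) (a b c i m : ℕ) (hm : a + b + c + i = m) :
    z 0 ^ a * z 1 ^ b * z 2 ^ c * w ^ i ∈ V ^ m ∧ (a : ℝ) * s v 1 (z 0) + b * s v 1 (z 1) ≤ s v m (z 0 ^ a * z 1 ^ b * z 2 ^ c * w ^ i) := by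
  subst hm
  have ha := Submodule.pow_mem_pow _ (hz 0) a
  have hb := Submodule.pow_mem_pow _ (hz 1) b
  have hc := Submodule.pow_mem_pow _ (hz 2) c
  have hi := Submodule.pow_mem_pow _ hw i
  have hab : z 0 ^ a * z 1 ^ b ∈ V ^ (a + b) := by rw [pow_add]; exact Submodule.mul_mem_mul ha hb
  have habc : z 0 ^ a * z 1 ^ b * z 2 ^ c ∈ V ^ (a + b + c) := by rw [pow_add]; exact Submodule.mul_mem_mul hab hc
  have hall : z 0 ^ a * z 1 ^ b * z 2 ^ c * w ^ i ∈ V ^ (a + b + c + i) := by rw [pow_add]; exact Submodule.mul_mem_mul habc hi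
  have na := pow_ne_zero a (hz0 0)
  have nb := pow_ne_zero b (hz0 1)
  have nc := pow_ne_zero c (hz0 2)
  have ni := pow_ne_zero i hw0
  refine ⟨hall, ?_⟩
  rw [hS.mul v hv _ _ _ _ habc hi (mul_ne_zero (mul_ne_zero na nb) nc) ni, hS.mul v hv _ _ _ _ hab hc (mul_ne_zero na nb) nc,
    hS.mul v hv _ _ _ _ ha hb na nb, hS.pow hv (hz 0) (hz0 0), hS.pow hv (hz 1) (hz0 1)]
  have h1 := hS.nn v hv c _ hc nc
  have h2 := hS.nn v hv i _ hi ni
  linarith

/-- the independent family of monomials -/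
theorem mono_indep (z : Fin 3 → R) (hF : Free k z) (w : R) (e : ℕ) (hQ : Qe (Submodule.span k (Set.range z)) w (e + 1)) (m : ℕ)
    (hm : e ≤ m) : LinearIndependent k fun x : (Finset.range (e + 1) ×ˢ Tn (m - e) : Finset (ℕ × ℕ × ℕ)) =>
      z 0 ^ x.1.2.1 * z 1 ^ x.1.2.2 * z 2 ^ (m - x.1.1 - x.1.2.1 - x.1.2.2) * w ^ x.1.1 := by
  classical
  obtain ⟨T, hT⟩ : ∃ T, T = (Finset.range (e + 1) ×ˢ Tn (m - e) : Finset (ℕ × ℕ × ℕ)) := ⟨_, rfl⟩
  rw [← hT]
  rw [Fintype.linearIndependent_iff]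
  intro c hc
  -- extension by zero
  let C : ℕ × ℕ × ℕ → k := fun x => if h : x ∈ T then c ⟨x, h⟩ else 0
  let q : ℕ → MvPolynomial (Fin 3) k := fun i => ∑ y ∈ Tn (m - e),
    monomial (Finsupp.single 0 y.1 + Finsupp.single 1 y.2 + Finsupp.single 2 (m - i - y.1 - y.2)) (C (i, y))
  have hV : ∀ j, z j ∈ Submodule.span k (Set.range z) := fun j => Submodule.subset_span ⟨j, rfl⟩
  have haq : ∀ i, aeval z (q i) = ∑ y ∈ Tn (m - e), C (i, y) • (z 0 ^ y.1 * z 1 ^ y.2 * z 2 ^ (m - i - y.1 - y.2)) := by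
    intro i
    rw [map_sum]
    refine Finset.sum_congr rfl fun y _ => ?_
    rw [aeval_monomial, Algebra.smul_def]
    congr 1
    generalize m - i - y.1 - y.2 = r
    rw [Finsupp.prod_fintype _ _ (fun _ => pow_zero _), Fin.prod_univ_three]
    simp [Finsupp.single_apply]
  have hhq : ∀ i, i ≤ e → (q i).IsHomogeneous (m - i) := by
    intro i hi
    refine IsHomogeneous.sum _ _ _ fun y hy => ?_
    rw [mem_Tn] at hy
    refine isHomogeneous_monomial _ ?_
    rw [map_add, map_add, Finsupp.degree_single, Finsupp.degree_single, Finsupp.degree_single]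
    omega
  have hpow : ∀ i, i ≤ e → aeval z (q i) ∈ Submodule.span k (Set.range z) ^ (m - i) := by
    intro i hi
    rw [haq]
    refine Submodule.sum_mem _ fun y hy => Submodule.smul_mem _ _ ?_
    rw [mem_Tn] at hy
    have h1 : Submodule.span k (Set.range z) ^ (m - i) = Submodule.span k (Set.range z) ^ y.1 * Submodule.span k (Set.range z) ^ y.2 *
        Submodule.span k (Set.range z) ^ (m - i - y.1 - y.2) := by
      rw [← pow_add, ← pow_add]
      congr 1
      omega
    rw [h1]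
    exact Submodule.mul_mem_mul (Submodule.mul_mem_mul (Submodule.pow_mem_pow _ (hV 0) _) (Submodule.pow_mem_pow _ (hV 1) _))
      (Submodule.pow_mem_pow _ (hV 2) _)
  have hsum : ∑ i ∈ Finset.range (e + 1), aeval z (q i) * w ^ i = 0 := by
    have h1 : ∑ x : T, c x • (z 0 ^ x.1.2.1 * z 1 ^ x.1.2.2 * z 2 ^ (m - x.1.1 - x.1.2.1 - x.1.2.2) * w ^ x.1.1) =
        ∑ x ∈ T, C x • (z 0 ^ x.2.1 * z 1 ^ x.2.2 * z 2 ^ (m - x.1 - x.2.1 - x.2.2) * w ^ x.1) := by
      rw [← Finset.sum_coe_sort T]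
      refine Finset.sum_congr rfl fun x _ => ?_
      have h2 : C x.1 = c x := dif_pos x.2
      rw [h2]
    rw [hc] at h1
    rw [h1, hT, Finset.sum_product]
    refine Finset.sum_congr rfl fun i _ => ?_
    rw [haq, Finset.sum_mul]
    refine Finset.sum_congr rfl fun y _ => ?_
    rw [smul_mul_assoc]
  have h0 := hQ (m - e) (fun i => aeval z (q i)) (fun i hi => by
    have h1 : m - e + (e + 1 - 1 - i) = m - i := by omega
    rw [h1]
    exact hpow i (by omega)) hsum
  rintro ⟨x, hx⟩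
  have hx' := hx
  rw [hT, Finset.mem_product, Finset.mem_range] at hx'
  have h1 := hF (m - x.1) (q x.1) (hhq x.1 (by omega)) (h0 x.1 hx'.1)
  have h2 := congrArg (coeff (Finsupp.single 0 x.2.1 + Finsupp.single 1 x.2.2 + Finsupp.single 2 (m - x.1 - x.2.1 - x.2.2))) h1
  rw [coeff_zero, coeff_sum, Finset.sum_eq_single_of_mem x.2 hx'.2] at h2
  · rw [coeff_monomial, if_pos rfl] at h2
    have h3 : C (x.1, x.2) = c ⟨x, hx⟩ := dif_pos hx
    rw [← h3]
    exact h2
  · intro y _ hy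
    rw [coeff_monomial, if_neg]
    intro h3
    apply hy
    have e0 := DFunLike.congr_fun h3 0
    have e1 := DFunLike.congr_fun h3 1
    simp at e0 e1
    exact Prod.ext e0 e1

end Pool.Agent.QP.EF
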