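import Pool.Agent.Helper77.QP.EFd

/-!
# QP, block EF, part 5: the dichotomy for a four dimensional subspace of a field
-/

set_option autoImplicit false

namespace Pool.Agent.QP.EF

open Module Filter MvPolynomial

variable {k R τ : Type*} [Field k] [Field R] [Algebra k R]

theorem ext_fam' {α : Type*} [Fintype α] (W : Submodule k R) [Module.Finite k W] (w : α → R) (hw : LinearIndependent k w)
    (hW : ∀ i, w i ∈ W) (φ : R → ℝ) (hφ : ∀ r ∈ W, r ≠ 0 → 0 ≤ φ r) :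
    ∃ w' : Fin (finrank k W) → R, LinearIndependent k w' ∧ (∀ i, w' i ∈ W) ∧ ∑ i, φ (w i) ≤ ∑ i, φ (w' i) := by
  classical
  let e := Fintype.equivFin α
  obtain ⟨w', h1, h2, h3⟩ := ext_fam W (w ∘ e.symm) (hw.comp _ e.symm.injective) (fun i => hW _) φ hφ
  refine ⟨w', h1, h2, le_trans (le_of_eq ?_) h3⟩
  exact (e.symm.sum_comp fun a => φ (w a)).symm

theorem finrank_hyp (V : Submodule k R) [Module.Finite k V] (x : R →ₗ[k] k) (w : R) (hw : w ∈ V) (hx : x w ≠ 0) :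
    finrank k (V ⊓ LinearMap.ker x : Submodule k R) + 1 = finrank k V := by
  have h1 := LinearMap.finrank_range_add_finrank_ker (x.domRestrict V)
  have h2 : LinearMap.range (x.domRestrict V) = ⊤ := by
    rw [LinearMap.range_eq_top]
    intro a
    refine ⟨(a * (x w)⁻¹) • ⟨w, hw⟩, ?_⟩
    rw [map_smul, LinearMap.domRestrict_apply, smul_eq_mul, mul_assoc, inv_mul_cancel₀ hx, mul_one]
  have h3 : (LinearMap.ker (x.domRestrict V)).map V.subtype = V ⊓ LinearMap.ker x := by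
    ext r
    rw [Submodule.mem_map, Submodule.mem_inf, LinearMap.mem_ker]
    constructor
    · rintro ⟨⟨r', hr'⟩, h, rfl⟩
      exact ⟨hr', h⟩
    · rintro ⟨h4, h5⟩
      exact ⟨⟨r, h4⟩, h5, rfl⟩
  rw [h2, finrank_top, finrank_self] at h1
  rw [← h3, Submodule.finrank_map_subtype_eq]
  omega

theorem hyp_basis (V : Submodule k R) [Module.Finite k V] (hV : finrank k V = 4) (x : R →ₗ[k] k) (w : R) (hw : w ∈ V) (hx : x w ≠ 0) :
    ∃ z : Fin 3 → R, LinearIndependent k z ∧ (∀ i, z i ∈ V) ∧ ∀ i, x (z i) = 0 := by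
  have h1 := finrank_hyp V x w hw hx
  have h2 : finrank k (V ⊓ LinearMap.ker x : Submodule k R) = 3 := by omega
  have hf : Module.Finite k (V ⊓ LinearMap.ker x : Submodule k R) := Submodule.finiteDimensional_inf_left V _
  let b := (finBasis k (V ⊓ LinearMap.ker x : Submodule k R)).reindex (finCongr h2)
  refine ⟨fun i => (b i : R), ?_, fun i => (b i).2.1, fun i => (b i).2.2⟩
  exact b.linearIndependent.map' (V ⊓ LinearMap.ker x).subtype (Submodule.ker_subtype _)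

theorem hyp_basis2 (V : Submodule k R) [Module.Finite k V] (hV : finrank k V = 4) (x : R →ₗ[k] k) (w : R) (hw : w ∈ V) (hx : x w ≠ 0)
    (g g' : R) (hg : g ∈ V) (hg' : g' ∈ V) (hli : LinearIndependent k ![g, g']) (h0 : x g = 0) (h0' : x g' = 0) :
    ∃ z : Fin 3 → R, z 0 = g ∧ z 1 = g' ∧ LinearIndependent k z ∧ (∀ i, z i ∈ V) ∧ ∀ i, x (z i) = 0 := by
  have h1 := finrank_hyp V x w hw hx
  have h2 : finrank k (V ⊓ LinearMap.ker x : Submodule k R) = 3 := by omega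
  have hf : Module.Finite k (V ⊓ LinearMap.ker x : Submodule k R) := Submodule.finiteDimensional_inf_left V _
  have h3 : ∃ u ∈ (V ⊓ LinearMap.ker x : Submodule k R), u ∉ Submodule.span k (Set.range ![g, g']) := by
    by_contra hcon
    push Not at hcon
    have h4 : (V ⊓ LinearMap.ker x : Submodule k R) ≤ Submodule.span k (Set.range ![g, g']) := hcon
    have hf2 : Module.Finite k (Submodule.span k (Set.range ![g, g'])) := Module.Finite.iff_fg.2 (Submodule.fg_span (Set.finite_range _))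
    have h5 := Submodule.finrank_mono h4
    rw [finrank_span_eq_card hli, Fintype.card_fin, h2] at h5
    omega
  obtain ⟨u, hu, hu'⟩ := h3
  have h4 : LinearIndependent k (Fin.snoc (α := fun _ => R) ![g, g'] u : Fin 3 → R) := by
    rw [linearIndependent_finSnoc]
    exact ⟨hli, hu'⟩
  have h5 : (Fin.snoc (α := fun _ => R) ![g, g'] u : Fin 3 → R) = ![g, g', u] := by
    ext i
    fin_cases i <;> rfl
  rw [h5] at h4
  refine ⟨![g, g', u], rfl, rfl, h4, fun i => ?_, fun i => ?_⟩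
  · fin_cases i
    · exact hg
    · exact hg'
    · exact hu.1
  · fin_cases i
    · exact h0
    · exact h0'
    · exact hu.2

theorem span_hyp (V : Submodule k R) [Module.Finite k V] (hV : finrank k V = 4) (x : R →ₗ[k] k) (w : R) (hw : w ∈ V) (hx : x w = 1)
    (z : Fin 3 → R) (hz : LinearIndependent k z) (hzV : ∀ i, z i ∈ V) (hz0 : ∀ i, x (z i) = 0) :
    Submodule.span k (Set.range z) ≤ V ∧ V ≤ Submodule.span k (Set.range z) ⊔ Submodule.span k {w} ∧
      ∀ r ∈ V, r - x r • w ∈ Submodule.span k (Set.range z) := by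
  have hx0 : x w ≠ 0 := by rw [hx]; exact one_ne_zero
  have h1 := finrank_hyp V x w hw hx0
  have h2 : finrank k (V ⊓ LinearMap.ker x : Submodule k R) = 3 := by omega
  have hf : Module.Finite k (V ⊓ LinearMap.ker x : Submodule k R) := Submodule.finiteDimensional_inf_left V _
  have h3 : Submodule.span k (Set.range z) ≤ V ⊓ LinearMap.ker x := by
    rw [Submodule.span_le]
    rintro _ ⟨i, rfl⟩
    exact ⟨hzV i, hz0 i⟩
  have h4 : Submodule.span k (Set.range z) = V ⊓ LinearMap.ker x := by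
    refine Submodule.eq_of_le_of_finrank_eq h3 ?_
    rw [finrank_span_eq_card hz, Fintype.card_fin, h2]
  have h5 : ∀ r ∈ V, r - x r • w ∈ Submodule.span k (Set.range z) := by
    intro r hr
    rw [h4]
    refine ⟨Submodule.sub_mem _ hr (Submodule.smul_mem _ _ hw), ?_⟩
    show x (r - x r • w) = 0
    rw [map_sub, map_smul, hx, smul_eq_mul, mul_one, sub_self]
  refine ⟨h3.trans inf_le_left, fun r hr => ?_, h5⟩
  have h6 : r = (r - x r • w) + x r • w := by ring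
  rw [h6]
  exact Submodule.add_mem _ (Submodule.mem_sup_left (h5 r hr)) (Submodule.mem_sup_right (Submodule.smul_mem _ _
    (Submodule.mem_span_singleton_self w)))

theorem span3 (z : Fin 3 → R) : Submodule.span k (Set.range z) = Submodule.span k {z 0} ⊔ Submodule.span k {z 1} ⊔ Submodule.span k {z 2} := by
  rw [← Submodule.span_union, ← Submodule.span_union]
  congr 1
  ext x
  constructor
  · rintro ⟨i, rfl⟩
    fin_cases i
    · exact Or.inl (Or.inl rfl)
    · exact Or.inl (Or.inr rfl)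
    · exact Or.inr rfl
  · rintro ((h | h) | h)
    · exact ⟨0, h.symm⟩
    · exact ⟨1, h.symm⟩
    · exact ⟨2, h.symm⟩

/-- comparison of the cubic polynomials -/
theorem cubic (ε : ℝ) (hε : 0 < ε) (e c : ℕ) : ∃ N : ℕ, ∀ m : ℕ, N ≤ m → e ≤ m ∧
    (1 - ε) * ((m : ℝ) * ((m + c + 1) * (m + c + 2))) ≤ ((m - e : ℕ) : ℝ) * ((m - e : ℕ) + 1) * ((m - e : ℕ) + 2) := by
  have h1 : Tendsto (fun m : ℕ => ((m : ℝ) - e) / ((m : ℝ) + (c + 2))) atTop (nhds 1) := by
    have h2 : Tendsto (fun m : ℕ => (1 : ℝ) - (e + (c + 2)) / ((m : ℝ) + (c + 2))) atTop (nhds (1 - 0)) := by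
      refine Tendsto.sub tendsto_const_nhds ?_
      refine Tendsto.div_atTop tendsto_const_nhds ?_
      exact tendsto_atTop_add_const_right _ _ tendsto_natCast_atTop_atTop
    rw [sub_zero] at h2
    refine h2.congr fun m => ?_
    have h3 : (m : ℝ) + (c + 2) ≠ 0 := by positivity
    field_simp
    ring
  have h2 := (h1.pow 3)
  rw [one_pow] at h2
  have h3 := h2.eventually (lt_mem_nhds (show 1 - ε < 1 by linarith))
  obtain ⟨N, hN⟩ := eventually_atTop.1 (h3.and (eventually_ge_atTop e))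
  refine ⟨N, fun m hm => ?_⟩
  obtain ⟨h4, h5⟩ := hN m hm
  refine ⟨h5, ?_⟩
  rw [Nat.cast_sub h5]
  have h6 : (0 : ℝ) < (m : ℝ) + (c + 2) := by positivity
  rw [div_pow, lt_div_iff₀ (by positivity)] at h4
  have h7 : (0 : ℝ) ≤ (m : ℝ) - e := by
    rw [sub_nonneg]
    exact_mod_cast h5
  have h8 : ((m : ℝ) - e) ^ 3 ≤ ((m : ℝ) - e) * ((m - e) + 1) * ((m - e) + 2) := by
    have : 0 ≤ ((m : ℝ) - e) ^ 2 := sq_nonneg _
    nlinarith
  refine le_trans ?_ h8
  rcases le_or_gt 1 ε with h9 | h9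
  · have h10 : (0 : ℝ) ≤ (m : ℝ) * ((m + c + 1) * (m + c + 2)) := by positivity
    have h11 : (0 : ℝ) ≤ ((m : ℝ) - e) ^ 3 := pow_nonneg h7 3
    nlinarith
  · refine le_trans ?_ h4.le
    refine mul_le_mul_of_nonneg_left ?_ (by linarith)
    have hm0 : (0 : ℝ) ≤ m := Nat.cast_nonneg m
    have hc0 : (0 : ℝ) ≤ c := Nat.cast_nonneg c
    have e1 : (m : ℝ) ≤ m + (c + 2) := by linarith
    have e2 : (m : ℝ) + c + 1 ≤ m + (c + 2) := by linarith
    have e3 : (m : ℝ) + c + 2 ≤ m + (c + 2) := by linarith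
    calc (m : ℝ) * ((m + c + 1) * (m + c + 2)) ≤ (m + (c + 2)) * ((m + (c + 2)) * (m + (c + 2))) := by
          refine mul_le_mul e1 (mul_le_mul e2 e3 (by positivity) (by positivity)) (by positivity) (by positivity)
      _ = (m + (c + 2)) ^ 3 := by ring

/-- a pair with a proper common zero -/
theorem pair_fam [Infinite k] {V : Submodule k R} {P : Finset τ} {s : τ → ℕ → R → ℝ} (hS : Sys V P s) (hVFG : V.FG) (hV4 : finrank k V = 4)
    {ι : Type*} (y : ι → R) (hy : ∀ i, y i ∈ V) (D : ℕ) (p : MvPolynomial ι k) (hp : p.IsHomogeneous D) (hp0 : aeval y p = 0)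
    (x : R →ₗ[k] k) (hx : eval (fun i => x (y i)) p ≠ 0) (w : R) (hw : w ∈ V) (hxw : x w = 1)
    (z : Fin 3 → R) (hz : LinearIndependent k z) (hzV : ∀ i, z i ∈ V) (hz0 : ∀ i, x (z i) = 0) (hF : Free k z) {v : τ} (hv : v ∈ P)
    (ε : ℝ) (hε : 0 < ε) : ∃ N : ℕ, ∀ m, N ≤ m → ∃ w : Fin (finrank k (V ^ m : Submodule k R)) → R, LinearIndependent k w ∧
      (∀ i, w i ∈ V ^ m) ∧ (s v 1 (z 0) + s v 1 (z 1)) * ((1 - ε) / 3 * (m * (finrank k (V ^ m : Submodule k R) : ℝ))) ≤ ∑ i, s v m (w i) := by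
  classical
  have hfV : Module.Finite k V := Module.Finite.iff_fg.2 hVFG
  obtain ⟨h1, h2, h3⟩ := span_hyp V hV4 x w hw hxw z hz hzV hz0
  have hw0 : w ≠ 0 := by
    rintro rfl
    rw [map_zero] at hxw
    exact zero_ne_one hxw
  obtain ⟨n, hn⟩ := monic_pow h1 hw y (fun i => x (y i)) (fun j => h3 _ (hy j)) D p hp hp0 hx
  obtain ⟨e, c, hQ, hdim⟩ := exists_rank h1 hw hw0 h2 (Submodule.fg_span (Set.finite_range z)) hVFG n hn
    (fun m => by rw [span3]; exact dim3 _ _ _ m)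
  obtain ⟨N, hN⟩ := cubic ε hε e c
  refine ⟨N, fun m hm => ?_⟩
  obtain ⟨hem, hcub⟩ := hN m hm
  have hind := mono_indep z hF w e hQ m hem
  have hfm := finite_pow hVFG m
  set T := (Finset.range (e + 1) ×ˢ Tn (m - e) : Finset (ℕ × ℕ × ℕ)) with hT
  have hmem : ∀ x ∈ T, z 0 ^ x.2.1 * z 1 ^ x.2.2 * z 2 ^ (m - x.1 - x.2.1 - x.2.2) * w ^ x.1 ∈ V ^ m ∧
      (x.2.1 : ℝ) * s v 1 (z 0) + x.2.2 * s v 1 (z 1) ≤ s v m (z 0 ^ x.2.1 * z 1 ^ x.2.2 * z 2 ^ (m - x.1 - x.2.1 - x.2.2) * w ^ x.1) := by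
    intro x hx
    rw [hT, Finset.mem_product, Finset.mem_range, mem_Tn] at hx
    exact hS.mono3 hv z hzV (fun i => hz.ne_zero i) w hw hw0 _ _ _ _ m (by omega)
  obtain ⟨w', h4, h5, h6⟩ := ext_fam' (V ^ m) _ hind (fun i => (hmem i.1 i.2).1) (s v m) (hS.nn v hv m)
  refine ⟨w', h4, h5, le_trans ?_ h6⟩
  have h7 : ∑ x ∈ T, ((x.2.1 : ℝ) * s v 1 (z 0) + x.2.2 * s v 1 (z 1)) ≤
      ∑ x : T, s v m (z 0 ^ x.1.2.1 * z 1 ^ x.1.2.2 * z 2 ^ (m - x.1.1 - x.1.2.1 - x.1.2.2) * w ^ x.1.1) := by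
    rw [← Finset.sum_coe_sort T]
    exact Finset.sum_le_sum fun x _ => (hmem x.1 x.2).2
  refine le_trans ?_ h7
  have h8 : ∑ x ∈ T, ((x.2.1 : ℝ) * s v 1 (z 0) + x.2.2 * s v 1 (z 1)) =
      (e + 1) * ((s v 1 (z 0) + s v 1 (z 1)) * ∑ y ∈ Tn (m - e), (y.1 : ℝ)) := by
    rw [hT, Finset.sum_product]
    show ∑ _x ∈ Finset.range (e + 1), ∑ y ∈ Tn (m - e), ((y.1 : ℝ) * s v 1 (z 0) + (y.2 : ℝ) * s v 1 (z 1)) = _
    rw [Finset.sum_const, Finset.card_range, nsmul_eq_mul, Finset.sum_add_distrib, ← Finset.sum_mul, ← Finset.sum_mul, sum_Tn_swap]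
    push_cast
    ring
  rw [h8]
  have h9 := sum_Tn (m - e)
  have hR : 0 ≤ s v 1 (z 0) + s v 1 (z 1) :=
    add_nonneg (hS.nn v hv 1 _ (by rw [pow_one]; exact hzV 0) (hz.ne_zero 0)) (hS.nn v hv 1 _ (by rw [pow_one]; exact hzV 1) (hz.ne_zero 1))
  have h10 : (2 : ℝ) * (finrank k (V ^ m : Submodule k R) : ℝ) ≤ (e + 1) * ((m + c + 1) * (m + c + 2)) := by
    exact_mod_cast hdim m
  rcases le_or_gt 1 ε with h11 | h11
  · refine le_trans (b := 0) ?_ ?_
    · refine mul_nonpos_of_nonneg_of_nonpos hR ?_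
      refine mul_nonpos_of_nonpos_of_nonneg (by linarith) (by positivity)
    · refine mul_nonneg (by positivity) (mul_nonneg hR (Finset.sum_nonneg fun y _ => Nat.cast_nonneg _))
  · have h12 : (1 - ε) / 3 * (m * (finrank k (V ^ m : Submodule k R) : ℝ)) ≤ (e + 1) * ∑ y ∈ Tn (m - e), (y.1 : ℝ) := by
      have h13 : (1 - ε) / 3 * (m * (finrank k (V ^ m : Submodule k R) : ℝ)) =
          (1 - ε) / 6 * m * (2 * (finrank k (V ^ m : Submodule k R) : ℝ)) := by ring
      rw [h13]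
      have h14 : (1 - ε) / 6 * m * (2 * (finrank k (V ^ m : Submodule k R) : ℝ)) ≤
          (1 - ε) / 6 * m * ((e + 1) * ((m + c + 1) * (m + c + 2))) := by
        refine mul_le_mul_of_nonneg_left h10 (mul_nonneg ?_ (Nat.cast_nonneg m))
        linarith
      refine h14.trans ?_
      have h15 : (1 - ε) / 6 * m * ((e + 1) * ((m + c + 1) * (m + c + 2))) =
          (e + 1) / 6 * ((1 - ε) * ((m : ℝ) * ((m + c + 1) * (m + c + 2)))) := by ring
      have h16 : ((e : ℝ) + 1) * ∑ y ∈ Tn (m - e), (y.1 : ℝ) = (e + 1) / 6 * (((m - e : ℕ) : ℝ) * ((m - e : ℕ) + 1) * ((m - e : ℕ) + 2)) := by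
        rw [← h9]
        ring
      rw [h15, h16]
      exact mul_le_mul_of_nonneg_left hcub (by positivity)
    calc (s v 1 (z 0) + s v 1 (z 1)) * ((1 - ε) / 3 * (m * (finrank k (V ^ m : Submodule k R) : ℝ)))
        ≤ (s v 1 (z 0) + s v 1 (z 1)) * ((e + 1) * ∑ y ∈ Tn (m - e), (y.1 : ℝ)) := mul_le_mul_of_nonneg_left h12 hR
      _ = (e + 1) * ((s v 1 (z 0) + s v 1 (z 1)) * ∑ y ∈ Tn (m - e), (y.1 : ℝ)) := by ring

theorem comb {V : Submodule k R} {P : Finset τ} {s : τ → ℕ → R → ℝ} (hS : Sys V P s) (m : ℕ) (hm : 0 < m) (t : τ → ℝ)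
    (h : ∀ v ∈ P, ∃ w : Fin (finrank k (V ^ m : Submodule k R)) → R, LinearIndependent k w ∧ (∀ i, w i ∈ V ^ m) ∧
      t v ≤ ∑ i, s v m (w i)) : ∑ v ∈ P, t v ≤ m * finrank k (V ^ m : Submodule k R) := by
  classical
  have h1 : ∀ v, ∃ w : Fin (finrank k (V ^ m : Submodule k R)) → R, v ∈ P → LinearIndependent k w ∧ (∀ i, w i ∈ V ^ m) ∧
      t v ≤ ∑ i, s v m (w i) := by
    intro v
    by_cases hv : v ∈ P
    · obtain ⟨w, hw⟩ := h v hv
      exact ⟨w, fun _ => hw⟩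
    · exact ⟨fun _ => 0, fun h => absurd h hv⟩
  choose w hw using h1
  refine le_trans (Finset.sum_le_sum fun v hv => (hw v hv).2.2) ?_
  exact hS.sch m hm (fun _ => finrank k (V ^ m : Submodule k R)) w (fun v hv => (hw v hv).1) (fun v hv => (hw v hv).2.1)

theorem exists_w {V : Submodule k R} {ι : Type*} (y : ι → R) (hy : ∀ i, y i ∈ V) (D : ℕ) (p : MvPolynomial ι k) (hp : p.IsHomogeneous D)
    (hp0 : aeval y p = 0) (x : R →ₗ[k] k) (hx : eval (fun i => x (y i)) p ≠ 0) : ∃ w ∈ V, x w = 1 := by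
  have h1 : ∃ i, x (y i) ≠ 0 := by
    by_contra hcon
    push Not at hcon
    apply hx
    have h2 : (fun i => x (y i)) = 0 := funext hcon
    rw [h2]
    have h3 : eval (0 : ι → k) p = coeff 0 p := by
      rw [← constantCoeff_eq, ← eval_zero]
    rw [h3]
    by_cases hD : D = 0
    · subst hD
      have h1 : p ∈ homogeneousSubmodule ι k 0 := hp
      rw [homogeneousSubmodule_zero] at h1
      obtain ⟨a, ha⟩ := Submodule.mem_one.1 h1
      rw [← ha, AlgHom.commutes] at hp0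
      have h2 : a = 0 := (map_eq_zero _).1 hp0
      rw [← ha, h2, map_zero, coeff_zero]
    · refine hp.coeff_eq_zero ?_
      rw [map_zero]
      exact fun h => hD h.symm
  obtain ⟨i, hi⟩ := h1
  exact ⟨(x (y i))⁻¹ • y i, Submodule.smul_mem _ _ (hy i), by rw [map_smul, smul_eq_mul, inv_mul_cancel₀ hi]⟩

/-- the dichotomy -/
theorem efA [Infinite k] {V : Submodule k R} {P : Finset τ} {s : τ → ℕ → R → ℝ} (hS : Sys V P s) (hVFG : V.FG) (hV4 : finrank k V = 4)
    {ι : Type*} (y : ι → R) (hy : ∀ i, y i ∈ V) (D : ℕ) (p : MvPolynomial ι k) (hp : p.IsHomogeneous D) (hp0 : aeval y p = 0)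
    (hne : ∃ x : R →ₗ[k] k, eval (fun i => x (y i)) p ≠ 0) :
    (∀ c : τ → R, (∀ v ∈ P, c v ∈ V ∧ c v ≠ 0) → ∑ v ∈ P, s v 1 (c v) ≤ 2) ∨
    (∀ r : τ → ℝ, (∀ v ∈ P, (∃ g ∈ V, g ≠ 0 ∧ r v = s v 1 g) ∨
      (∃ g ∈ V, ∃ g' ∈ V, LinearIndependent k ![g, g'] ∧ (∃ x : R →ₗ[k] k, x g = 0 ∧ x g' = 0 ∧ eval (fun i => x (y i)) p ≠ 0) ∧
        r v = s v 1 g + s v 1 g')) → ∑ v ∈ P, r v ≤ 3) := by
  classical
  have hfV : Module.Finite k V := Module.Finite.iff_fg.2 hVFG
  set H : ℕ → ℝ := fun m => (finrank k (V ^ m : Submodule k R) : ℝ) with hH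
  -- a point gives a complement
  have hw0 : ∀ {x : R →ₗ[k] k} {w : R}, x w = 1 → w ≠ 0 := by
    rintro x w hxw rfl
    rw [map_zero] at hxw
    exact zero_ne_one hxw
  have hH1 : ∀ m, 1 ≤ H m := by
    intro m
    obtain ⟨x, hx⟩ := hne
    obtain ⟨w, hw, hxw⟩ := exists_w y hy D p hp hp0 x hx
    have h1 := finrank_pow_mono hVFG hw (hw0 hxw) 0 m
    rw [pow_zero, zero_add] at h1
    have h2 : finrank k (1 : Submodule k R) = 1 := by
      rw [Submodule.one_eq_span, finrank_span_singleton one_ne_zero]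
    rw [h2] at h1
    show (1 : ℝ) ≤ (finrank k (V ^ m : Submodule k R) : ℝ)
    exact_mod_cast h1
  by_cases hA : ∃ x : R →ₗ[k] k, eval (fun i => x (y i)) p ≠ 0 ∧ ∃ z : Fin 3 → R, LinearIndependent k z ∧ (∀ i, z i ∈ V) ∧
      (∀ i, x (z i) = 0) ∧ ¬ Free k z
  · left
    intro c hc
    obtain ⟨x, hx, z, hz, hzV, hz0, hnf⟩ := hA
    obtain ⟨w, hw, hxw⟩ := exists_w y hy D p hp hp0 x hx
    obtain ⟨h1, h2, h3⟩ := span_hyp V hV4 x w hw hxw z hz hzV hz0
    obtain ⟨n, hn⟩ := monic_pow h1 hw y (fun i => x (y i)) (fun j => h3 _ (hy j)) D p hp hp0 hx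
    obtain ⟨K, hK⟩ := growth1 z hz h1 hw (hw0 hxw) h2 hVFG n hn hnf
    refine le_of_forall_pos_le_add fun ε hε => ?_
    obtain ⟨m, -, hm0, hm⟩ := growth H 1 K hH1 (fun m => by
      show (finrank k (V ^ m : Submodule k R) : ℝ) ≤ _
      exact_mod_cast hK m) ε hε 0
    have h4 := comb hS m hm0 (fun v => s v 1 (c v) * ∑ i ∈ Finset.range m, H i) (fun v hv => adapted hS hVFG hv (c v) (hc v hv).1 (hc v hv).2 m)
    rw [← Finset.sum_mul] at h4
    have h5 : 0 < ∑ i ∈ Finset.range m, H i :=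
      Finset.sum_pos (fun i _ => lt_of_lt_of_le one_pos (hH1 i)) ⟨0, Finset.mem_range.2 hm0⟩
    have h6 := h4.trans hm
    have h7 := le_of_mul_le_mul_right h6 h5
    push_cast at h7
    linarith
  · right
    push Not at hA
    intro r hr
    have hr0 : ∀ v ∈ P, 0 ≤ r v := by
      intro v hv
      rcases hr v hv with ⟨g, hg, hg0, h⟩ | ⟨g, hg, g', hg', hli, -, h⟩
      · rw [h]
        exact hS.nn v hv 1 g (by rwa [pow_one]) hg0
      · rw [h]
        exact add_nonneg (hS.nn v hv 1 g (by rwa [pow_one]) (hli.ne_zero 0)) (hS.nn v hv 1 g' (by rwa [pow_one]) (hli.ne_zero 1))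
    obtain ⟨x, hx⟩ := hne
    obtain ⟨w, hw, hxw⟩ := exists_w y hy D p hp hp0 x hx
    obtain ⟨z, hz, hzV, hz0⟩ := hyp_basis V hV4 x w hw (by rw [hxw]; exact one_ne_zero)
    obtain ⟨h1, h2, h3⟩ := span_hyp V hV4 x w hw hxw z hz hzV hz0
    obtain ⟨n, hn⟩ := monic_pow h1 hw y (fun i => x (y i)) (fun j => h3 _ (hy j)) D p hp hp0 hx
    obtain ⟨K, hK⟩ := growth2 h1 hw (hw0 hxw) h2 (Submodule.fg_span (Set.finite_range z)) hVFG n hn
      (fun m => by rw [span3]; exact dim3 _ _ _ m)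
    -- the main estimate
    have hmain : ∀ ε : ℝ, 0 < ε → ε < 1 → (∑ v ∈ P, r v) * (1 - ε) ≤ 3 := by
      intro ε hε hε1
      have hev : ∀ v, ∃ N : ℕ, v ∈ P → ∀ m, N ≤ m → 0 < m → m * H m ≤ (3 + ε) * ∑ i ∈ Finset.range m, H i →
          ∃ w : Fin (finrank k (V ^ m : Submodule k R)) → R, LinearIndependent k w ∧
            (∀ i, w i ∈ V ^ m) ∧ r v * ((1 - ε) / 3 * (m * H m)) ≤ ∑ i, s v m (w i) := by
        intro v
        by_cases hv : v ∈ P
        · rcases hr v hv with ⟨g, hg, hg0, h⟩ | ⟨g, hg, g', hg', hli, ⟨x', hx1, hx2, hx3⟩, h⟩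
          · refine ⟨0, fun _ m _ hm0 hm => ?_⟩
            obtain ⟨w, h4, h5, h6⟩ := adapted hS hVFG hv g hg hg0 m
            refine ⟨w, h4, h5, le_trans ?_ h6⟩
            rw [h]
            refine mul_le_mul_of_nonneg_left ?_ (hS.nn v hv 1 g (by rwa [pow_one]) hg0)
            have h7 : (0 : ℝ) ≤ ∑ i ∈ Finset.range m, H i := Finset.sum_nonneg fun i _ => le_trans zero_le_one (hH1 i)
            have h8 : (1 - ε) / 3 * (m * H m) ≤ (1 - ε) / 3 * ((3 + ε) * ∑ i ∈ Finset.range m, H i) :=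
              mul_le_mul_of_nonneg_left hm (by linarith)
            refine h8.trans ?_
            nlinarith [mul_nonneg hε.le h7, mul_nonneg (mul_nonneg hε.le hε.le) h7]
          · obtain ⟨w', hw', hxw'⟩ := exists_w y hy D p hp hp0 x' hx3
            obtain ⟨z', hz1, hz2, hz3, hz4, hz5⟩ := hyp_basis2 V hV4 x' w' hw' (by rw [hxw']; exact one_ne_zero) g g' hg hg' hli hx1 hx2
            have hF := hA x' hx3 z' hz3 hz4 hz5
            obtain ⟨N, hN⟩ := pair_fam hS hVFG hV4 y hy D p hp hp0 x' hx3 w' hw' hxw' z' hz3 hz4 hz5 hF hv ε hε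
            refine ⟨N, fun _ m hm _ _ => ?_⟩
            obtain ⟨w, h4, h5, h6⟩ := hN m hm
            refine ⟨w, h4, h5, ?_⟩
            rw [h, ← hz1, ← hz2]
            exact h6
        · exact ⟨0, fun h => absurd h hv⟩
      choose N hN using hev
      obtain ⟨m, hmN, hm0, hm⟩ := growth H 2 K hH1 (fun m => by
        show (finrank k (V ^ m : Submodule k R) : ℝ) ≤ _
        exact_mod_cast hK m) ε hε (P.sup N)
      have hm' : m * H m ≤ (3 + ε) * ∑ i ∈ Finset.range m, H i := by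
        refine hm.trans (le_of_eq ?_)
        push_cast
        ring
      have h4 := comb hS m hm0 (fun v => r v * ((1 - ε) / 3 * (m * H m))) (fun v hv =>
        hN v hv m ((Finset.le_sup hv).trans hmN) hm0 hm')
      rw [← Finset.sum_mul] at h4
      have h5 : 0 < m * H m := mul_pos (by exact_mod_cast hm0) (lt_of_lt_of_le one_pos (hH1 m))
      have h6 : ((∑ v ∈ P, r v) * (1 - ε)) * (m * H m) ≤ 3 * (m * H m) := by
        have h7 : (∑ v ∈ P, r v) * ((1 - ε) / 3 * (m * H m)) = ((∑ v ∈ P, r v) * (1 - ε)) * (m * H m) / 3 := by ring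
        have h8 : (∑ v ∈ P, r v) * ((1 - ε) / 3 * (m * H m)) ≤ m * H m := h4
        rw [h7] at h8
        linarith
      exact le_of_mul_le_mul_right h6 h5
    by_contra hcon
    push Not at hcon
    set A := ∑ v ∈ P, r v with hA'
    have h4 : 0 < A := by linarith
    have h5 := hmain ((A - 3) / (2 * A)) (div_pos (by linarith) (by linarith)) (by
      rw [div_lt_one (by linarith)]
      linarith)
    have h6 : A * (1 - (A - 3) / (2 * A)) = (A + 3) / 2 := by
      field_simp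
      ring
    rw [h6] at h5
    linarith

end Pool.Agent.QP.EF
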