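import Pool.Agent.Helper77.QP.EFe
import Pool.Agent.Helper61.QP.Sch

/-!
# QP, block EF, part 6: the field of germs, and the theorem `ef`
-/

set_option autoImplicit false

namespace Pool.Agent.QP.EF

open Module Filter MvPolynomial NumberField
open Pool.Agent.Helper64.Vojta (Pl nv nv_nonneg nv_mul nv_one nv_zero nv_pos)
open Pool.Agent.V2

section germ

variable (U : Ultrafilter ℕ) (k : Type*) [Field k]

/-- the field of germs -/
def GR : Type _ := (U : Filter ℕ).Germ k

noncomputable instance : Field (GR U k) := inferInstanceAs (Field ((U : Filter ℕ).Germ k))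

/-- the germ of a sequence -/
def gm : (ℕ → k) →+* GR U k := Filter.Germ.coeRingHom (U : Filter ℕ)

noncomputable instance : Algebra k (GR U k) := ((gm U k).comp (Pi.constRingHom ℕ k)).toAlgebra

variable {U k}

theorem gm_eq {f g : ℕ → k} : gm U k f = gm U k g ↔ ∀ᶠ n in (U : Filter ℕ), f n = g n := Filter.Germ.coe_eq

theorem gm_surj (r : GR U k) : ∃ f, gm U k f = r := by
  induction r using Filter.Germ.inductionOn with
  | h f => exact ⟨f, rfl⟩

theorem smul_gm (c : k) (f : ℕ → k) : c • gm U k f = gm U k (fun n => c * f n) := by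
  rw [Algebra.smul_def]
  exact ((gm U k).map_mul _ _).symm

theorem algebraMap_gm (c : k) : algebraMap k (GR U k) c = gm U k (fun _ => c) := rfl

theorem gm_ne {f : ℕ → k} (h : gm U k f ≠ 0) : ∀ᶠ n in (U : Filter ℕ), f n ≠ 0 := by
  rw [Ultrafilter.eventually_not]
  intro h1
  apply h
  rw [← map_zero (gm U k)]
  exact gm_eq.2 h1

end germ

section prod

variable {k ι : Type*} [Field k] [Fintype ι]

/-- products of the coordinates -/
def Fm (F : ℕ → ι → k) (m : ℕ) : ℕ → (Fin m → ι) → k := fun n a => ∏ j, F n (a j)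

variable (U : Ultrafilter ℕ) (F : ℕ → ι → k)

/-- the germs of the coordinates -/
noncomputable def cy (a : ι) : GR U k := gm U k fun n => F n a

/-- their span -/
noncomputable def Vg : Submodule k (GR U k) := Submodule.span k (Set.range (cy U F))

/-- a form in the products -/
noncomputable def Ps (m : ℕ) : ((Fin m → ι) → k) →ₗ[k] GR U k :=
  Fintype.linearCombination k (fun a : Fin m → ι => ∏ j, cy U F (a j))

theorem Ps_apply (m : ℕ) (g : (Fin m → ι) → k) : Ps U F m g = gm U k (fun n => vl g (Fm F m n)) := by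
  unfold Ps
  rw [Fintype.linearCombination_apply]
  have h1 : (fun n => vl g (Fm F m n)) = ∑ a, fun n => g a * Fm F m n a := by
    funext n
    rw [Finset.sum_apply]
    rfl
  rw [h1, map_sum]
  refine Finset.sum_congr rfl fun a _ => ?_
  rw [← smul_gm]
  congr 1
  unfold cy Fm
  rw [← map_prod]
  congr 1
  funext n
  rw [Finset.prod_apply]

theorem ker_Ps (m : ℕ) : LinearMap.ker (Ps U F m) = van U (Fm F m) := by
  ext g
  rw [LinearMap.mem_ker, Ps_apply, ← map_zero (gm U k), gm_eq]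
  rfl

theorem range_Ps (m : ℕ) : LinearMap.range (Ps U F m) = Vg U F ^ m := by
  unfold Ps Vg
  rw [Fintype.range_linearCombination, Submodule.span_pow]
  congr 1
  ext r
  rw [Set.mem_pow, Set.mem_range]
  constructor
  · rintro ⟨a, rfl⟩
    refine ⟨fun j => ⟨cy U F (a j), ⟨a j, rfl⟩⟩, ?_⟩
    rw [List.prod_ofFn]
  · rintro ⟨f, rfl⟩
    choose a ha using fun j => (f j).2
    refine ⟨a, ?_⟩
    rw [List.prod_ofFn]
    exact Finset.prod_congr rfl fun j _ => ha j

/-- a linear form in the coordinates -/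
noncomputable def P1 : (ι → k) →ₗ[k] GR U k := Fintype.linearCombination k (cy U F)

theorem P1_apply (g : ι → k) : P1 U F g = gm U k (fun n => vl g (F n)) := by
  unfold P1
  rw [Fintype.linearCombination_apply]
  have h1 : (fun n => vl g (F n)) = ∑ a, fun n => g a * F n a := by
    funext n
    rw [Finset.sum_apply]
    rfl
  rw [h1, map_sum]
  refine Finset.sum_congr rfl fun a _ => ?_
  rw [← smul_gm]
  rfl

theorem ker_P1 : LinearMap.ker (P1 U F) = van U F := by
  ext g
  rw [LinearMap.mem_ker, P1_apply, ← map_zero (gm U k), gm_eq]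
  rfl

theorem range_P1 : LinearMap.range (P1 U F) = Vg U F := by
  unfold P1 Vg
  rw [Fintype.range_linearCombination]

theorem finrank_Vm (m : ℕ) : finrank k (Vg U F ^ m : Submodule k (GR U k)) = finrank k (Qt U (Fm F m)) := by
  rw [← range_Ps]
  have h1 := (Ps U F m).quotKerEquivRange.finrank_eq
  rw [ker_Ps] at h1
  exact h1.symm

theorem finrank_V : finrank k (Vg U F) = finrank k (Qt U F) := by
  rw [← range_P1]
  have h1 := (P1 U F).quotKerEquivRange.finrank_eq
  rw [ker_P1] at h1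
  exact h1.symm

theorem Vg_FG : (Vg U F).FG := Submodule.fg_span (Set.finite_range _)

end prod

section size

variable {k ι : Type*} [Field k] [NumberField k] [Fintype ι]

theorem vn_Fm [Nonempty ι] (F : ℕ → ι → k) (m n : ℕ) (v : Pl k) : vn v (Fm F m n) = (vn v (F n)) ^ m := by
  have hnn : 0 ≤ vn v (F n) := (nv_nonneg v _).trans (le_vn v (F n) (Classical.arbitrary ι))
  apply le_antisymm
  · refine vn_le v _ (pow_nonneg hnn m) fun a => ?_
    have h1 : nv v (Fm F m n a) = ∏ j, nv v (F n (a j)) := nv_prod v Finset.univ _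
    rw [h1]
    calc ∏ j, nv v (F n (a j)) ≤ ∏ _j : Fin m, vn v (F n) :=
          Finset.prod_le_prod (fun j _ => nv_nonneg v _) fun j _ => le_vn v (F n) (a j)
      _ = vn v (F n) ^ m := by rw [Finset.prod_const, Finset.card_univ, Fintype.card_fin]
  · obtain ⟨i, hi⟩ := exists_eq_ciSup_of_finite (f := fun i => nv v (F n i))
    have h1 : nv v (F n i) = vn v (F n) := hi
    have h2 := le_vn v (Fm F m n) (fun _ => i)
    have h3 : nv v (Fm F m n (fun _ => i)) = (vn v (F n)) ^ m := by
      have h4 : nv v (Fm F m n (fun _ => i)) = ∏ _j : Fin m, nv v (F n i) := nv_prod v Finset.univ _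
      rw [h4, Finset.prod_const, Finset.card_univ, Fintype.card_fin, h1]
    rwa [h3] at h2

theorem vH_Fm [Nonempty ι] (F : ℕ → ι → k) (m n : ℕ) : vH (Fm F m n) = m * vH (F n) := by
  unfold vH
  rw [← gsum_const_mul]
  congr 1
  funext v
  rw [vn_Fm, Real.log_pow]

/-- the size of a germ in the `m`-th power -/
noncomputable def sg (U : Ultrafilter ℕ) (F : ℕ → ι → k) (v : Pl k) (m : ℕ) (r : GR U k) : ℝ :=
  limUnder (U : Filter ℕ) fun n => (m * Real.log (vn v (F n)) - Real.log (nv v ((gm_surj r).choose n))) / vH (F n)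

variable [Nonempty ι] (U : Ultrafilter ℕ) (F : ℕ → ι → k) (hH : Tendsto (fun n => vH (F n)) (U : Filter ℕ) atTop)

include hH

omit hH [Nonempty ι] in
theorem sg_unique {v : Pl k} {m : ℕ} {ρ : ℕ → k} {a : ℝ}
    (h : Tendsto (fun n => (m * Real.log (vn v (F n)) - Real.log (nv v (ρ n))) / vH (F n)) (U : Filter ℕ) (nhds a)) :
    sg U F v m (gm U k ρ) = a := by
  have h1 := gm_eq.1 (gm_surj (gm U k ρ)).choose_spec
  apply Filter.Tendsto.limUnder_eq
  refine h.congr' ?_
  filter_upwards [h1] with n hn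
  rw [hn]

theorem tendsto_m {m : ℕ} (hm : 0 < m) : Tendsto (fun n => vH (Fm F m n)) (U : Filter ℕ) atTop := by
  simp_rw [vH_Fm]
  exact hH.const_mul_atTop (by exact_mod_cast hm)

/-- the limit exists, and is not negative -/
theorem sg_tendsto {v : Pl k} {m : ℕ} {ρ : ℕ → k} (hρ : gm U k ρ ∈ Vg U F ^ m) (h0 : gm U k ρ ≠ 0) :
    Tendsto (fun n => (m * Real.log (vn v (F n)) - Real.log (nv v (ρ n))) / vH (F n)) (U : Filter ℕ) (nhds (sg U F v m (gm U k ρ))) ∧
      0 ≤ sg U F v m (gm U k ρ) := by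
  rcases Nat.eq_zero_or_pos m with hm | hm
  · subst hm
    rw [pow_zero] at hρ
    obtain ⟨c, hc⟩ := Submodule.mem_one.1 hρ
    rw [algebraMap_gm] at hc
    have h1 : Tendsto (fun n => (((0 : ℕ) : ℝ) * Real.log (vn v (F n)) - Real.log (nv v (ρ n))) / vH (F n)) (U : Filter ℕ) (nhds 0) := by
      have h2 : Tendsto (fun n => (-Real.log (nv v c)) / vH (F n)) (U : Filter ℕ) (nhds 0) := tendsto_const_nhds.div_atTop hH
      refine h2.congr' ?_
      filter_upwards [gm_eq.1 hc] with n hn
      rw [← hn, Nat.cast_zero, zero_mul, zero_sub]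
    rw [sg_unique U F h1]
    exact ⟨h1, le_rfl⟩
  · rw [← range_Ps] at hρ
    obtain ⟨g, hg⟩ := hρ
    have hgv : g ∉ van U (Fm F m) := by
      rw [← ker_Ps, LinearMap.mem_ker, hg]
      exact h0
    have hHm := tendsto_m U F hH hm
    have h1 := szf_tendsto U (Fm F m) hHm v g hgv
    have h2 := szf_nonneg U (Fm F m) hHm v g hgv
    have hm' : (m : ℝ) ≠ 0 := by exact_mod_cast hm.ne'
    have h3 : Tendsto (fun n => (m * Real.log (vn v (F n)) - Real.log (nv v (ρ n))) / vH (F n)) (U : Filter ℕ)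
        (nhds (m * szf U (Fm F m) v g)) := by
      refine (h1.const_mul (m : ℝ)).congr' ?_
      rw [Ps_apply] at hg
      filter_upwards [gm_eq.1 hg, hH.eventually_gt_atTop 0] with n hn hn0
      rw [vH_Fm, vn_Fm, Real.log_pow, hn]
      field_simp
    rw [sg_unique U F h3]
    exact ⟨h3, mul_nonneg (Nat.cast_nonneg m) h2⟩

theorem sg_Ps {v : Pl k} {m : ℕ} (hm : 0 < m) (g : (Fin m → ι) → k) (hg : g ∉ van U (Fm F m)) :
    sg U F v m (Ps U F m g) = m * sz U (Fm F m) v ((van U (Fm F m)).mkQ g) := by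
  have hHm := tendsto_m U F hH hm
  rw [sz_mk U (Fm F m) hHm v g hg, Ps_apply]
  apply sg_unique
  have hm' : (m : ℝ) ≠ 0 := by exact_mod_cast hm.ne'
  refine ((szf_tendsto U (Fm F m) hHm v g hg).const_mul (m : ℝ)).congr' ?_
  filter_upwards [hH.eventually_gt_atTop 0] with n hn0
  rw [vH_Fm, vn_Fm, Real.log_pow]
  field_simp

theorem sg_P1 {v : Pl k} (g : ι → k) (hg : g ∉ van U F) :
    sg U F v 1 (P1 U F g) = sz U F v ((van U F).mkQ g) := by
  rw [sz_mk U F hH v g hg, P1_apply]
  apply sg_unique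
  refine (szf_tendsto U F hH v g hg).congr' ?_
  filter_upwards with n
  rw [Nat.cast_one, one_mul]

theorem sys (P : Finset (Pl k)) : Sys (Vg U F) P (sg U F) where
  nn := by
    intro v _ m r hr h0
    obtain ⟨ρ, rfl⟩ := gm_surj r
    exact (sg_tendsto U F hH hr h0).2
  mul := by
    intro v _ m m' r r' hr hr' h0 h0'
    obtain ⟨ρ, rfl⟩ := gm_surj r
    obtain ⟨ρ', rfl⟩ := gm_surj r'
    have h1 := (sg_tendsto (v := v) U F hH hr h0).1
    have h2 := (sg_tendsto (v := v) U F hH hr' h0').1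
    rw [← map_mul]
    apply sg_unique
    refine (h1.add h2).congr' ?_
    filter_upwards [gm_ne h0, gm_ne h0'] with n h3 h4
    rw [Pi.mul_apply, nv_mul, Real.log_mul (nv_pos v h3).ne' (nv_pos v h4).ne', ← add_div]
    push_cast
    congr 1
    ring
  sch := by
    intro m hm n w hw hwV
    have hHm := tendsto_m U F hH hm
    have hex : ∀ v, ∀ i, ∃ g : (Fin m → ι) → k, v ∈ P → Ps U F m g = w v i := by
      intro v i
      by_cases hv : v ∈ P
      · have h1 := hwV v hv i
        rw [← range_Ps] at h1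
        obtain ⟨g, hg⟩ := h1
        exact ⟨g, fun _ => hg⟩
      · exact ⟨0, fun h => absurd h hv⟩
    choose g hg using hex
    have hker : van U (Fm F m) ≤ LinearMap.ker (Ps U F m) := (ker_Ps U F m).ge
    have h1 := sch U (Fm F m) hHm P n (fun v i => (van U (Fm F m)).mkQ (g v i)) (fun v hv => by
      refine LinearIndependent.of_comp ((van U (Fm F m)).liftQ (Ps U F m) hker) ?_
      have h2 : (⇑((van U (Fm F m)).liftQ (Ps U F m) hker) ∘ fun i => (van U (Fm F m)).mkQ (g v i)) = w v := by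
        funext i
        rw [Function.comp_apply, Submodule.mkQ_apply, Submodule.liftQ_apply]
        exact hg v i hv
      rw [h2]
      exact hw v hv)
    rw [finrank_Vm]
    have h3 : ∀ v ∈ P, ∀ i, sg U F v m (w v i) = m * sz U (Fm F m) v ((van U (Fm F m)).mkQ (g v i)) := by
      intro v hv i
      rw [← hg v i hv]
      refine sg_Ps U F hH hm _ ?_
      rw [← ker_Ps, LinearMap.mem_ker, hg v i hv]
      exact (hw v hv).ne_zero i
    rw [Finset.sum_congr rfl fun v hv => Finset.sum_congr rfl fun i _ => h3 v hv i]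
    simp_rw [← Finset.mul_sum]
    exact mul_le_mul_of_nonneg_left h1 (Nat.cast_nonneg m)

end size

section final

variable {k : Type*} [Field k] [NumberField k]

/-- the determinant as a polynomial -/
noncomputable def dp (k : Type*) [Field k] : MvPolynomial (Fin 6) k :=
  X 0 * (X 1 * X 2 - X 5 * X 5) - X 3 * (X 3 * X 2 - X 5 * X 4) + X 4 * (X 3 * X 5 - X 1 * X 4)

theorem dp_hom : (dp k).IsHomogeneous 3 := by
  have hX : ∀ i : Fin 6, (X i : MvPolynomial (Fin 6) k).IsHomogeneous 1 := fun i => isHomogeneous_X k i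
  have h2 : ∀ a b c d : Fin 6, (X a * X b - X c * X d : MvPolynomial (Fin 6) k).IsHomogeneous 2 := fun a b c d =>
    ((hX a).mul (hX b)).sub ((hX c).mul (hX d))
  have h3 : ∀ a b c d e : Fin 6, (X a * (X b * X c - X d * X e) : MvPolynomial (Fin 6) k).IsHomogeneous 3 := fun a b c d e =>
    (hX a).mul (h2 b c d e)
  exact ((h3 0 1 2 5 5).sub (h3 3 3 2 5 4)).add (h3 4 3 5 1 4)

theorem eval_dp (f : Fin 6 → k) : eval f (dp k) = det6 f := by
  simp [dp, det6]

theorem aeval_dp {R : Type*} [Field R] [Algebra k R] (f : Fin 6 → R) : aeval f (dp k) = det6 f := by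
  simp [dp, det6]

/-- a point at which the vanishing forms vanish, as a functional -/
theorem point {ι : Type*} [Fintype ι] [DecidableEq ι] (U : Ultrafilter ℕ) (F : ℕ → ι → k) (f : ι → k) (hf : ∀ g ∈ van U F, vl g f = 0) :
    ∃ x : GR U k →ₗ[k] k, ∀ g, x (P1 U F g) = vl g f := by
  let l : (ι → k) →ₗ[k] k :=
    { toFun := fun g => vl g f
      map_add' := fun g g' => by simp [vl, add_mul, Finset.sum_add_distrib]
      map_smul' := fun c g => by simp [vl, Finset.mul_sum, mul_assoc] }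
  have h1 : l ∈ (LinearMap.ker (P1 U F)).dualAnnihilator := by
    rw [Submodule.mem_dualAnnihilator]
    intro g hg
    rw [ker_P1] at hg
    exact hf g hg
  rw [← LinearMap.range_dualMap_eq_dualAnnihilator_ker] at h1
  obtain ⟨x, hx⟩ := h1
  exact ⟨x, fun g => LinearMap.congr_fun hx g⟩

end final

end Pool.Agent.QP.EF

namespace Pool.Agent.QP

open Module Filter MvPolynomial NumberField
open Pool.Agent.Helper64.Vojta (Pl nv)
open Pool.Agent.V2

variable {k : Type*} [Field k] [NumberField k] (U : Ultrafilter ℕ)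

/-- The germ `F` of symmetric tensors of rank at most two, if it spans four dimensions. -/
theorem ef (F : ℕ → Fin 6 → k) (hH : Tendsto (fun n => vH (F n)) (U : Filter ℕ) atTop)
    (hdet : ∀ᶠ n in (U : Filter ℕ), det6 (F n) = 0) (hd : finrank k (Qt U F) = 4)
    (hne : ∃ f : Fin 6 → k, (∀ g ∈ van U F, pr g f = 0) ∧ det6 f ≠ 0) (P : Finset (Pl k)) :
    (∀ e : Pl k → Qt U F, (∀ v ∈ P, e v ≠ 0) → ∑ v ∈ P, sz U F v (e v) ≤ 2) ∨
    (∀ R : Pl k → ℝ, (∀ v ∈ P, (∃ g : Fin 6 → k, g ∉ van U F ∧ R v = sz U F v ((van U F).mkQ g)) ∨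
        ∃ g g' : Fin 6 → k, LinearIndependent k ![(van U F).mkQ g, (van U F).mkQ g'] ∧
          (∃ f : Fin 6 → k, (∀ h ∈ van U F, pr h f = 0) ∧ pr g f = 0 ∧ pr g' f = 0 ∧ det6 f ≠ 0) ∧
          R v = sz U F v ((van U F).mkQ g) + sz U F v ((van U F).mkQ g')) →
      ∑ v ∈ P, R v ≤ 3) := by
  classical
  have hmem : ∀ g, EF.P1 U F g ∈ EF.Vg U F := fun g => by
    rw [← EF.range_P1]
    exact ⟨g, rfl⟩
  have hy : ∀ a, EF.cy U F a = EF.P1 U F (Pi.single a 1) := by
    intro a
    unfold EF.P1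
    rw [Fintype.linearCombination_apply_single, one_smul]
  have hyV : ∀ a, EF.cy U F a ∈ EF.Vg U F := fun a => Submodule.subset_span ⟨a, rfl⟩
  have hp0 : aeval (EF.cy U F) (EF.dp k) = 0 := by
    rw [EF.aeval_dp]
    have h1 : det6 (EF.cy U F) = EF.gm U k (fun n => det6 (F n)) := by
      unfold det6 EF.cy
      simp only [← map_mul, ← map_sub, ← map_add]
      rfl
    rw [h1, ← map_zero (EF.gm U k)]
    exact EF.gm_eq.2 hdet
  -- points
  have hpt : ∀ f : Fin 6 → k, (∀ g ∈ van U F, pr g f = 0) → det6 f ≠ 0 → ∃ x : EF.GR U k →ₗ[k] k,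
      eval (fun a => x (EF.cy U F a)) (EF.dp k) ≠ 0 ∧ ∀ g, x (EF.P1 U F g) = pr g f := by
    intro f hf hdf
    obtain ⟨x, hx⟩ := EF.point U F f hf
    refine ⟨x, ?_, hx⟩
    have h1 : (fun a => x (EF.cy U F a)) = f := by
      funext a
      rw [hy, hx]
      simp [vl, Pi.single_apply]
    rw [h1, EF.eval_dp]
    exact hdf
  have hne' : ∃ x : EF.GR U k →ₗ[k] k, eval (fun a => x (EF.cy U F a)) (EF.dp k) ≠ 0 := by
    obtain ⟨f, hf, hdf⟩ := hne
    obtain ⟨x, hx, -⟩ := hpt f hf hdf
    exact ⟨x, hx⟩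
  have hinf : Infinite k := CharZero.infinite k
  have h4 : finrank k (EF.Vg U F) = 4 := by rw [EF.finrank_V, hd]
  have hnev : ∀ {g : Fin 6 → k}, g ∉ van U F → EF.P1 U F g ≠ 0 := by
    intro g hg h
    apply hg
    rw [← EF.ker_P1]
    exact h
  rcases EF.efA (EF.sys U F hH P) (EF.Vg_FG U F) h4 (EF.cy U F) hyV 3 (EF.dp k) EF.dp_hom hp0 hne' with h | h
  · left
    intro e he
    choose g hg using fun v => (van U F).mkQ_surjective (e v)
    have hgv : ∀ v ∈ P, g v ∉ van U F := fun v hv => not_van_of_mk U F (by rw [hg]; exact he v hv)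
    have h1 := h (fun v => EF.P1 U F (g v)) (fun v hv => ⟨hmem _, hnev (hgv v hv)⟩)
    refine le_trans (le_of_eq (Finset.sum_congr rfl fun v hv => ?_)) h1
    rw [EF.sg_P1 U F hH (g v) (hgv v hv), hg]
  · right
    intro R hR
    refine h R fun v hv => ?_
    rcases hR v hv with ⟨g, hg, h1⟩ | ⟨g, g', hli, ⟨f, hf, hgf, hgf', hdf⟩, h1⟩
    · left
      refine ⟨EF.P1 U F g, hmem g, hnev hg, ?_⟩
      rw [h1, EF.sg_P1 U F hH g hg]
    · right
      have hg : g ∉ van U F := not_van_of_mk U F (hli.ne_zero 0)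
      have hg' : g' ∉ van U F := not_van_of_mk U F (hli.ne_zero 1)
      obtain ⟨x, hx, hxg⟩ := hpt f hf hdf
      refine ⟨EF.P1 U F g, hmem g, EF.P1 U F g', hmem g', ?_, ⟨x, by rw [hxg, hgf], by rw [hxg, hgf'], hx⟩, ?_⟩
      · have hker : van U F ≤ LinearMap.ker (EF.P1 U F) := (EF.ker_P1 U F).ge
        have h2 := hli.map' ((van U F).liftQ (EF.P1 U F) hker) (by
          rw [Submodule.ker_liftQ_eq_bot]
          exact (EF.ker_P1 U F).le)
        have h3 : (⇑((van U F).liftQ (EF.P1 U F) hker) ∘ ![(van U F).mkQ g, (van U F).mkQ g']) = ![EF.P1 U F g, EF.P1 U F g'] := by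
          funext i
          fin_cases i
          · exact Submodule.liftQ_apply _ _ _
          · exact Submodule.liftQ_apply _ _ _
        rwa [h3] at h2
      · rw [h1, EF.sg_P1 U F hH g hg, EF.sg_P1 U F hH g' hg']

end Pool.Agent.QP
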